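import Pool.Agent.Lib.Pe46137P.Defs
import Pool.Agent.Lib.Pe46137.Network

/-!
Operations on span programs; span programs from formulas and from switching networks; networks
from formulas.
-/

namespace Pool.Agent.Lib.Pe46137P

open Finset
open Pool.Agent.Lib.Pe46137

variable {E : Type}

/-- `f` is computed by a span program over `K` of dimension at most `m` which uses no negated
variable of `M` -/
def SComp (K : Type) [Field K] (M : Set E) (f : Set E → Prop) (m : ℕ) : Prop :=
  ∃ (V : Type) (_ : AddCommGroup V) (_ : Module K V) (S : SpanProgram E V),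
    FiniteDimensional K V ∧ Module.finrank K V ≤ m ∧ S.Avoids M ∧ ∀ x, S.Accepts K x ↔ f x

variable {K : Type} [Field K] {M : Set E}

theorem SComp.mono {f : Set E → Prop} {m m' : ℕ} (h : SComp K M f m) (hm : m ≤ m') :
    SComp K M f m' := by
  obtain ⟨V, i1, i2, S, h1, h2, h3, h4⟩ := h
  exact ⟨V, i1, i2, S, h1, h2.trans hm, h3, h4⟩

theorem SComp.congr {f g : Set E → Prop} {m : ℕ} (h : SComp K M f m) (hfg : ∀ x, f x ↔ g x) :
    SComp K M g m := by
  obtain ⟨V, i1, i2, S, h1, h2, h3, h4⟩ := h
  exact ⟨V, i1, i2, S, h1, h2, h3, fun x => (h4 x).trans (hfg x)⟩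

/-- a one-dimensional program -/
theorem scomp_one (f : Set E → Prop) (S : SpanProgram E K) (hS : S.Avoids M)
    (ht : S.target = 1) (h1 : ∀ x, S.available x ⊆ {v : K | v = 1})
    (h2 : ∀ x, (1 : K) ∈ S.available x ↔ f x) : SComp K M f 1 := by
  refine ⟨K, inferInstance, inferInstance, S, inferInstance, by simp, hS, fun x => ?_⟩
  unfold SpanProgram.Accepts
  rw [ht, ← h2 x]
  constructor
  · intro h
    by_contra hc
    have h3 : S.available x ⊆ ({0} : Set K) := by
      intro v hv
      have := h1 x hv
      simp only [Set.mem_ofPred_eq] at this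
      exact absurd (this ▸ hv) hc
    have h4 := Submodule.span_mono (R := K) h3 h
    simp at h4
  · intro h
    exact Submodule.subset_span h

theorem scomp_true : SComp K M (fun _ => True) 1 :=
  scomp_one _ ⟨1, {1}, fun _ => ∅, fun _ => ∅⟩ (fun _ _ => rfl) rfl
    (by intro x v hv; simpa [SpanProgram.available] using hv)
    (by intro x; simp [SpanProgram.available])

theorem scomp_false : SComp K M (fun _ => False) 1 :=
  scomp_one _ ⟨1, ∅, fun _ => ∅, fun _ => ∅⟩ (fun _ _ => rfl) rfl
    (by intro x v hv; simp [SpanProgram.available] at hv)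
    (by intro x; simp [SpanProgram.available])

theorem scomp_lit (e : E) : SComp K M (fun x => e ∈ x) 1 :=
  scomp_one _ ⟨1, ∅, fun e' => {v | e' = e ∧ v = 1}, fun _ => ∅⟩ (fun _ _ => rfl) rfl
    (by
      intro x v hv
      simp only [SpanProgram.available, Set.mem_union, Set.mem_iUnion, Set.mem_empty_iff_false,
        Set.mem_ofPred_eq, exists_false, or_false, false_or, exists_and_left, exists_prop] at hv
      obtain ⟨e', h1, h2, h3⟩ := hv
      first | exact h3 | exact h2)
    (by
      intro x
      simp [SpanProgram.available])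

theorem scomp_nlit {e : E} (he : e ∉ M) : SComp K M (fun x => e ∉ x) 1 :=
  scomp_one _ ⟨1, ∅, fun _ => ∅, fun e' => {v | e' = e ∧ v = 1}⟩
    (by
      intro e' he'
      ext v
      simp only [Set.mem_ofPred_eq, Set.mem_empty_iff_false, iff_false, not_and]
      intro h
      exact absurd (h ▸ he') he) rfl
    (by
      intro x v hv
      simp only [SpanProgram.available, Set.mem_union, Set.mem_iUnion, Set.mem_empty_iff_false,
        Set.mem_ofPred_eq, exists_false, or_false, false_or, exists_and_left, exists_prop] at hv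
      obtain ⟨e', h1, h2, h3⟩ := hv
      first | exact h3 | exact h2)
    (by
      intro x
      simp [SpanProgram.available])

section prod

variable {V V' : Type} [AddCommGroup V] [Module K V] [AddCommGroup V'] [Module K V']

/-- vectors of a direct sum of two programs, with a set of extra free vectors -/
def prodProg (S : SpanProgram E V) (S' : SpanProgram E V') (A : Set (V × V')) (b : V × V') :
    SpanProgram E (V × V') where
  target := b
  free := A ∪ ((fun v => (v, 0)) '' S.free ∪ (fun v => (0, v)) '' S'.free)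
  pos e := (fun v => (v, 0)) '' S.pos e ∪ (fun v => (0, v)) '' S'.pos e
  neg e := (fun v => (v, 0)) '' S.neg e ∪ (fun v => (0, v)) '' S'.neg e

theorem prodProg_avoids {S : SpanProgram E V} {S' : SpanProgram E V'} {A : Set (V × V')}
    {b : V × V'} (h : S.Avoids M) (h' : S'.Avoids M) : (prodProg S S' A b).Avoids M := by
  intro e he
  simp [prodProg, h e he, h' e he]

theorem prodProg_span {S : SpanProgram E V} {S' : SpanProgram E V'} {A : Set (V × V')}
    {b : V × V'} (x : Set E) : Submodule.span K ((prodProg S S' A b).available x) =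
      Submodule.span K A ⊔ (Submodule.span K (S.available x)).prod
        (Submodule.span K (S'.available x)) := by
  have h1 : (prodProg S S' A b).available x =
      A ∪ ((LinearMap.inl K V V') '' S.available x ∪ (LinearMap.inr K V V') '' S'.available x) := by
    ext v
    simp only [SpanProgram.available, prodProg, Set.mem_union, Set.mem_iUnion, Set.mem_image,
      LinearMap.coe_inl, LinearMap.coe_inr]
    constructor
    · rintro ((h | ⟨w, hw, rfl⟩ | ⟨w, hw, rfl⟩) | ⟨e, he, ⟨w, hw, rfl⟩ | ⟨w, hw, rfl⟩⟩ |
        ⟨e, he, ⟨w, hw, rfl⟩ | ⟨w, hw, rfl⟩⟩)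
      · exact Or.inl h
      · exact Or.inr (Or.inl ⟨w, Or.inl hw, rfl⟩)
      · exact Or.inr (Or.inr ⟨w, Or.inl hw, rfl⟩)
      · exact Or.inr (Or.inl ⟨w, Or.inr (Or.inl ⟨e, he, hw⟩), rfl⟩)
      · exact Or.inr (Or.inr ⟨w, Or.inr (Or.inl ⟨e, he, hw⟩), rfl⟩)
      · exact Or.inr (Or.inl ⟨w, Or.inr (Or.inr ⟨e, he, hw⟩), rfl⟩)
      · exact Or.inr (Or.inr ⟨w, Or.inr (Or.inr ⟨e, he, hw⟩), rfl⟩)
    · rintro (h | ⟨w, hw | ⟨e, he, hw⟩ | ⟨e, he, hw⟩, rfl⟩ |
        ⟨w, hw | ⟨e, he, hw⟩ | ⟨e, he, hw⟩, rfl⟩)
      · exact Or.inl (Or.inl h)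
      · exact Or.inl (Or.inr (Or.inl ⟨w, hw, rfl⟩))
      · exact Or.inr (Or.inl ⟨e, he, Or.inl ⟨w, hw, rfl⟩⟩)
      · exact Or.inr (Or.inr ⟨e, he, Or.inl ⟨w, hw, rfl⟩⟩)
      · exact Or.inl (Or.inr (Or.inr ⟨w, hw, rfl⟩))
      · exact Or.inr (Or.inl ⟨e, he, Or.inr ⟨w, hw, rfl⟩⟩)
      · exact Or.inr (Or.inr ⟨e, he, Or.inr ⟨w, hw, rfl⟩⟩)
  rw [h1, Submodule.span_union, Submodule.span_union, Submodule.span_image, Submodule.span_image,
    LinearMap.prod_eq_sup_map]

end prod

theorem SComp.and {f g : Set E → Prop} {m m' : ℕ} (hf : SComp K M f m) (hg : SComp K M g m') :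
    SComp K M (fun x => f x ∧ g x) (m + m') := by
  obtain ⟨V, i1, i2, S, h1, h2, h3, h4⟩ := hf
  obtain ⟨V', i1', i2', S', h1', h2', h3', h4'⟩ := hg
  refine ⟨V × V', inferInstance, inferInstance, prodProg S S' ∅ (S.target, S'.target),
    inferInstance, ?_, prodProg_avoids h3 h3', fun x => ?_⟩
  · rw [Module.finrank_prod]; omega
  · unfold SpanProgram.Accepts
    rw [prodProg_span, Submodule.span_empty, bot_sup_eq]
    change _ ↔ (f x ∧ g x)
    rw [← h4 x, ← h4' x]
    exact Submodule.mem_prod

theorem SComp.or {f g : Set E → Prop} {m m' : ℕ} (hf : SComp K M f m) (hg : SComp K M g m') :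
    SComp K M (fun x => f x ∨ g x) (m + m') := by
  obtain ⟨V, i1, i2, S, h1, h2, h3, h4⟩ := hf
  obtain ⟨V', i1', i2', S', h1', h2', h3', h4'⟩ := hg
  refine ⟨V × V', inferInstance, inferInstance, prodProg S S' {(S.target, -S'.target)}
    (S.target, 0), inferInstance, ?_, prodProg_avoids h3 h3', fun x => ?_⟩
  · rw [Module.finrank_prod]; omega
  · unfold SpanProgram.Accepts
    rw [prodProg_span]
    change (S.target, (0 : V')) ∈ _ ↔ (f x ∨ g x)
    rw [← h4 x, ← h4' x, Submodule.mem_sup]
    constructor
    · rintro ⟨u, hu, w, hw, huw⟩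
      obtain ⟨c, rfl⟩ := Submodule.mem_span_singleton.mp hu
      rw [Submodule.mem_prod] at hw
      obtain ⟨w1, w2⟩ := w
      simp only at hw
      have e1 : c • S.target + w1 = S.target := congrArg Prod.fst huw
      have e2 : c • (-S'.target) + w2 = 0 := congrArg Prod.snd huw
      by_cases hc : c = 0
      · left
        rw [hc, zero_smul, zero_add] at e1
        change S.target ∈ _
        rw [← e1]; exact hw.1
      · right
        have e3 : w2 = c • S'.target := by
          rw [smul_neg, neg_add_eq_zero] at e2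
          exact e2.symm
        have e4 : S'.target = c⁻¹ • w2 := by
          rw [e3, smul_smul, inv_mul_cancel₀ hc, one_smul]
        change S'.target ∈ _
        rw [e4]
        exact Submodule.smul_mem _ _ hw.2
    · rintro (h | h)
      · exact ⟨0, Submodule.zero_mem _, (S.target, 0), ⟨h, Submodule.zero_mem _⟩, by simp⟩
      · refine ⟨(S.target, -S'.target), Submodule.subset_span rfl, (0, S'.target),
          ⟨Submodule.zero_mem _, h⟩, by simp⟩

theorem scomp_exists {ι : Type*} (s : Finset ι) {f : ι → Set E → Prop} {m : ℕ}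
    (hf : ∀ i ∈ s, SComp K M (f i) m) : SComp K M (fun x => ∃ i ∈ s, f i x) (s.card * m + 1) := by
  classical
  induction s using Finset.induction_on with
  | empty => simpa using scomp_false
  | insert i s hi ih =>
    have h1 := (hf i (mem_insert_self _ _)).or (ih fun j hj => hf j (mem_insert_of_mem hj))
    rw [card_insert_of_notMem hi]
    refine (h1.mono ?_).congr ?_
    · ring_nf; omega
    · intro G
      simp

/-- a formula gives a span program over every field whose dimension is the number of leaves -/
theorem scomp_of_formula (K : Type) [Field K] (φ : Formula E) (hφ : φ.Avoids M) :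
    SComp K M (fun x => φ.Eval x) φ.leaves := by
  induction φ with
  | var e => exact scomp_lit e
  | nvar e => exact scomp_nlit hφ
  | top => exact scomp_true
  | bot => exact scomp_false
  | and φ ψ h1 h2 => exact (h1 hφ.1).and (h2 hφ.2)
  | or φ ψ h1 h2 => exact (h1 hφ.1).or (h2 hφ.2)

/-- a network gives a span program over every field whose dimension is the number of states -/
theorem scomp_of_network (K : Type) [Field K] {W : Type} [Fintype W] (N : SwitchingNetwork E W)
    (hN : N.Avoids M) : SComp K M (fun x => N.Connects x xᶜ) (Fintype.card W) := by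
  classical
  set δ : W → W → K := fun v => Pi.single v 1 with hδ
  refine ⟨W → K, inferInstance, inferInstance, ⟨δ N.source - δ N.sink,
    {u | ∃ v w, N.wire v w ∧ u = δ v - δ w}, fun e => {u | ∃ v w, N.pos e v w ∧ u = δ v - δ w},
    fun e => {u | ∃ v w, N.neg e v w ∧ u = δ v - δ w}⟩, inferInstance, by simp, ?_, ?_⟩
  · intro e he
    ext u
    simp only [Set.mem_ofPred_eq, Set.mem_empty_iff_false, iff_false, not_exists, not_and]
    intro v w h
    exact absurd h (hN e he v w)
  · intro x
    unfold SpanProgram.Accepts SpanProgram.available SwitchingNetwork.Connects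
    simp only
    have hav : ∀ u, u ∈ ({u | ∃ v w, N.wire v w ∧ u = δ v - δ w} ∪
        ((⋃ e ∈ x, {u | ∃ v w, N.pos e v w ∧ u = δ v - δ w}) ∪
          ⋃ e ∈ xᶜ, {u | ∃ v w, N.neg e v w ∧ u = δ v - δ w}) : Set (W → K)) ↔
        ∃ v w, N.Closed x xᶜ v w ∧ u = δ v - δ w := by
      intro u
      simp only [Set.mem_union, Set.mem_iUnion, Set.mem_ofPred_eq, exists_prop,
        SwitchingNetwork.Closed]
      constructor
      · rintro (⟨v, w, h, rfl⟩ | ⟨e, he, v, w, h, rfl⟩ | ⟨e, he, v, w, h, rfl⟩)
        · exact ⟨v, w, Or.inl h, rfl⟩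
        · exact ⟨v, w, Or.inr (Or.inl ⟨e, he, h⟩), rfl⟩
        · exact ⟨v, w, Or.inr (Or.inr ⟨e, he, h⟩), rfl⟩
      · rintro ⟨v, w, h | ⟨e, he, h⟩ | ⟨e, he, h⟩, rfl⟩
        · exact Or.inl ⟨v, w, h, rfl⟩
        · exact Or.inr (Or.inl ⟨e, he, v, w, h, rfl⟩)
        · exact Or.inr (Or.inr ⟨e, he, v, w, h, rfl⟩)
    constructor
    · intro h
      by_contra hc
      -- the indicator of the component of the source
      set ψ : (W → K) →ₗ[K] K := ∑ v ∈ univ.filter (fun v =>
        Relation.EqvGen (N.Closed x xᶜ) N.source v), LinearMap.proj v with hψ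
      have hψδ : ∀ v, ψ (δ v) = if Relation.EqvGen (N.Closed x xᶜ) N.source v then 1 else 0 := by
        intro v
        rw [hψ, LinearMap.sum_apply]
        simp only [hδ, LinearMap.proj_apply, Pi.single_apply]
        rw [sum_ite_eq' ]
        simp
      have hker : ∀ u ∈ Submodule.span K ({u | ∃ v w, N.wire v w ∧ u = δ v - δ w} ∪
        ((⋃ e ∈ x, {u | ∃ v w, N.pos e v w ∧ u = δ v - δ w}) ∪
          ⋃ e ∈ xᶜ, {u | ∃ v w, N.neg e v w ∧ u = δ v - δ w}) : Set (W → K)), ψ u = 0 := by
        intro u hu
        induction hu using Submodule.span_induction with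
        | mem u hu =>
          obtain ⟨v, w, h, rfl⟩ := (hav u).mp hu
          rw [map_sub, hψδ, hψδ]
          have := eqv_iff h N.source
          by_cases h1 : Relation.EqvGen (N.Closed x xᶜ) N.source v
          · rw [if_pos h1, if_pos (this.mp h1), sub_self]
          · rw [if_neg h1, if_neg (fun h2 => h1 (this.mpr h2)), sub_self]
        | zero => simp
        | add u u' _ _ h h' => rw [map_add, h, h', add_zero]
        | smul c u _ h => rw [map_smul, h, smul_zero]
      have h1 := hker _ h
      rw [map_sub, hψδ, hψδ, if_pos (Relation.EqvGen.refl _), if_neg hc, sub_zero] at h1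
      exact one_ne_zero h1
    · intro h
      have key : ∀ v w, Relation.EqvGen (N.Closed x xᶜ) v w → δ v - δ w ∈
          Submodule.span K ({u | ∃ v w, N.wire v w ∧ u = δ v - δ w} ∪
            ((⋃ e ∈ x, {u | ∃ v w, N.pos e v w ∧ u = δ v - δ w}) ∪
              ⋃ e ∈ xᶜ, {u | ∃ v w, N.neg e v w ∧ u = δ v - δ w}) : Set (W → K)) := by
        intro v w h
        induction h with
        | rel v w h => exact Submodule.subset_span ((hav _).mpr ⟨v, w, h, rfl⟩)
        | refl v => simp
        | symm v w _ ih =>
          rw [← neg_sub]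
          exact Submodule.neg_mem _ ih
        | trans u v w _ _ ih1 ih2 =>
          have : δ u - δ w = (δ u - δ v) + (δ v - δ w) := by abel
          rw [this]
          exact Submodule.add_mem _ ih1 ih2
      exact key _ _ h

/-- a formula gives a network with at most twice as many states as leaves -/
theorem comp_of_formula (φ : Formula E) (hφ : φ.Avoids M) :
    Comp M Set.univ (fun x : Set E => φ.Eval x) (2 * φ.leaves) := by
  induction φ with
  | var e => simpa [Formula.leaves, Formula.Eval] using comp_lit M Set.univ e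
  | nvar e =>
    refine ⟨Bool, inferInstance, ⟨true, false, fun _ _ => False, fun _ _ _ => False,
      fun e' _ _ => e' = e⟩, by simp [Formula.leaves], ?_, fun G _ => ⟨fun h => ?_, fun h => ?_⟩⟩
    · intro e' he' _ _ h
      exact hφ (h ▸ he')
    · intro hc
      have := eqv_closed (r := SwitchingNetwork.Closed _ G Gᶜ) {true} (by
        intro v w h
        simp only [SwitchingNetwork.Closed, exists_false, and_false, or_false, false_or] at h
        obtain ⟨e', h1, h2⟩ := h
        exact absurd hc (h2 ▸ h1)) h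
      simp at this
    · exact Relation.EqvGen.rel _ _ (Or.inr (Or.inr ⟨e, h, rfl⟩))
  | top => exact (comp_true _ _).mono (by simp [Formula.leaves])
  | bot => exact (comp_false _ _).mono (by simp [Formula.leaves])
  | and φ ψ h1 h2 =>
    refine (((h1 hφ.1).and (h2 hφ.2)).mono ?_).congr (fun G _ => ?_)
    · simp only [Formula.leaves]; omega
    · simp [Formula.Eval]
  | or φ ψ h1 h2 =>
    refine (((h1 hφ.1).or (h2 hφ.2)).mono ?_).congr (fun G _ => ?_)
    · simp only [Formula.leaves]; omega
    · simp [Formula.Eval]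

end Pool.Agent.Lib.Pe46137P
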