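import Pool.Agent.Lib.Pe46137P.Walk
import Pool.Agent.Lib.Pe46137P.SCalc

/-!
Networks: substitution of literals, blocks of consecutive factors, and the price in states.
-/

namespace Pool.Agent.Lib.Pe46137P

open Finset
open Pool.Agent.Lib.Pe46137

variable {E : Type}

/-- replace the variable `e` by the variable `g e`, or by the constant `c e` -/
def substInput (g : E → Option E) (c : E → Prop) (x : Set E) : Set E :=
  {e | (∃ e', g e = some e' ∧ e' ∈ x) ∨ (g e = none ∧ c e)}

/-- the network with replaced variables -/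
def substNet {W : Type} (N : SwitchingNetwork E W) (g : E → Option E) (c : E → Prop) :
    SwitchingNetwork E W where
  source := N.source
  sink := N.sink
  wire v w := N.wire v w ∨ (∃ e, g e = none ∧ c e ∧ N.pos e v w) ∨
    ∃ e, g e = none ∧ ¬ c e ∧ N.neg e v w
  pos e' v w := ∃ e, g e = some e' ∧ N.pos e v w
  neg e' v w := ∃ e, g e = some e' ∧ N.neg e v w

theorem substNet_closed {W : Type} (N : SwitchingNetwork E W) (g : E → Option E) (c : E → Prop)
    (x : Set E) (v w : W) : (substNet N g c).Closed x xᶜ v w ↔
      N.Closed (substInput g c x) (substInput g c x)ᶜ v w := by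
  unfold SwitchingNetwork.Closed substNet
  simp only
  constructor
  · rintro ((h | ⟨e, h1, h2, h3⟩ | ⟨e, h1, h2, h3⟩) | ⟨e', he', e, h1, h2⟩ | ⟨e', he', e, h1, h2⟩)
    · exact Or.inl h
    · exact Or.inr (Or.inl ⟨e, Or.inr ⟨h1, h2⟩, h3⟩)
    · refine Or.inr (Or.inr ⟨e, ?_, h3⟩)
      rintro (⟨e', h4, _⟩ | ⟨_, h5⟩)
      · rw [h1] at h4; cases h4
      · exact h2 h5
    · exact Or.inr (Or.inl ⟨e, Or.inl ⟨e', h1, he'⟩, h2⟩)
    · refine Or.inr (Or.inr ⟨e, ?_, h2⟩)
      rintro (⟨e'', h4, h5⟩ | ⟨h4, _⟩)
      · rw [h1] at h4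
        cases h4
        exact he' h5
      · rw [h1] at h4; cases h4
  · rintro (h | ⟨e, h1, h2⟩ | ⟨e, h1, h2⟩)
    · exact Or.inl (Or.inl h)
    · rcases h1 with ⟨e', h3, h4⟩ | ⟨h3, h4⟩
      · exact Or.inr (Or.inl ⟨e', h4, e, h3, h2⟩)
      · exact Or.inl (Or.inr (Or.inl ⟨e, h3, h4, h2⟩))
    · cases hg : g e with
      | none =>
        refine Or.inl (Or.inr (Or.inr ⟨e, hg, ?_, h2⟩))
        intro h
        exact h1 (Or.inr ⟨hg, h⟩)
      | some e' =>
        refine Or.inr (Or.inr ⟨e', ?_, e, hg, h2⟩)
        intro h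
        exact h1 (Or.inl ⟨e', hg, h⟩)

theorem comp_subst {W : Type} [Fintype W] (N : SwitchingNetwork E W) {f : Set E → Prop}
    (hN : ∀ x, N.Connects x xᶜ ↔ f x) (g : E → Option E) (c : E → Prop) {M : Set E}
    (hM : ∀ e e', g e = some e' → e' ∉ M) :
    Comp M Set.univ (fun x => f (substInput g c x)) (Fintype.card W) := by
  refine ⟨W, inferInstance, substNet N g c, le_rfl, ?_, fun x _ => ?_⟩
  · rintro e he v w ⟨e', h1, _⟩
    exact hM e' e h1 he
  · change _ ↔ f (substInput g c x)
    rw [← hN]
    unfold SwitchingNetwork.Connects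
    have : (substNet N g c).Closed x xᶜ =
        N.Closed (substInput g c x) (substInput g c x)ᶜ := by
      funext v w
      exact propext (substNet_closed N g c x v w)
    rw [this]
    exact Iff.rfl

section block

variable {n k : ℕ}

/-- renaming of the vertices of layer `t` which turns a walk from `a` to `b` into a walk from `c`
in layer `u` to `d` in layer `u'` -/
def ren (u u' : ℕ) (a b c d : Fin n) (t : ℕ) : Equiv.Perm (Fin n) :=
  if t = u then Equiv.swap a c else if t = u' then Equiv.swap b d else 1

/-- the substitution for a block of factors -/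
def blockMap (u u' : ℕ) (a b c d : Fin n) (e : Fin k × Fin n × Fin n) :
    Option (Fin k × Fin n × Fin n) :=
  if u ≤ (e.1 : ℕ) ∧ (e.1 : ℕ) < u' then
    some (e.1, ren u u' a b c d e.1 e.2.1, ren u u' a b c d (e.1 + 1) e.2.2) else none

theorem mem_block_in {u u' : ℕ} {a b c d : Fin n} {x : Set (Fin k × Fin n × Fin n)}
    {i : Fin k} (hi : u ≤ (i : ℕ) ∧ (i : ℕ) < u') (p q : Fin n) :
    (i, p, q) ∈ substInput (blockMap u u' a b c d) (fun e => e.2.1 = e.2.2) x ↔
      (i, ren u u' a b c d i p, ren u u' a b c d (i + 1) q) ∈ x := by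
  unfold substInput blockMap
  simp only [Set.mem_ofPred_eq, hi, and_self, if_true, Option.some.injEq, exists_eq_left',
    reduceCtorEq, false_and, or_false]

theorem mem_block_out {u u' : ℕ} {a b c d : Fin n} {x : Set (Fin k × Fin n × Fin n)}
    {i : Fin k} (hi : ¬ (u ≤ (i : ℕ) ∧ (i : ℕ) < u')) (p q : Fin n) :
    (i, p, q) ∈ substInput (blockMap u u' a b c d) (fun e => e.2.1 = e.2.2) x ↔ p = q := by
  unfold substInput blockMap
  simp only [Set.mem_ofPred_eq, hi, if_false, reduceCtorEq, false_and, exists_false, false_or,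
    true_and]

theorem entry_block {u u' : ℕ} (hu : u < u') (hk : u' ≤ k) {a b c d : Fin n}
    (x : Set (Fin k × Fin n × Fin n)) :
    Entry a b (substInput (blockMap u u' a b c d) (fun e => e.2.1 = e.2.2) x) ↔
      Walk x u u' c d := by
  rw [← walk_all, walk_split (show 0 ≤ u by omega) (show u ≤ k by omega)]
  set X := substInput (blockMap u u' a b c d) (fun e => e.2.1 = e.2.2) x with hX
  have hid : ∀ s t, s ≤ t → t ≤ k → (∀ i, s ≤ i → i < t → ¬ (u ≤ i ∧ i < u')) →
      ∀ p q : Fin n, Walk X s t p q ↔ p = q := by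
    intro s t hst htk hout p q
    constructor
    · rintro ⟨v, h1, h2, h3⟩
      have : ∀ i, s ≤ i → i ≤ t → v i = p := by
        intro i
        induction i with
        | zero =>
          intro h4 _
          have : s = 0 := by omega
          subst this
          exact h1
        | succ i ih =>
          intro h4 h5
          by_cases h6 : s = i + 1
          · rw [← h6]; exact h1
          · have h7 := ih (by omega) (by omega)
            obtain ⟨hik, h8⟩ := h3 i (by omega) (by omega)
            rw [mem_block_out (hout i (by omega) (by omega))] at h8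
            rw [← h8]; exact h7
      rw [← h2]
      exact (this t hst le_rfl).symm
    · rintro rfl
      refine ⟨fun _ => p, rfl, rfl, fun i h1 h2 => ⟨by omega, ?_⟩⟩
      rw [mem_block_out (hout i h1 h2)]
  have h1 : ∀ e : Fin n, Walk X 0 u a e ↔ a = e := fun e =>
    hid 0 u (Nat.zero_le _) (by omega) (fun i _ h => by omega) a e
  have h2 : ∀ e : Fin n, Walk X u' k e b ↔ e = b := fun e =>
    hid u' k (by omega) le_rfl (fun i h _ => by omega) e b
  have h3 : (∃ e, Walk X 0 u a e ∧ Walk X u k e b) ↔ Walk X u u' a b := by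
    constructor
    · rintro ⟨e, he, he'⟩
      rw [h1] at he
      subst he
      rw [walk_split hu.le hk] at he'
      obtain ⟨e', h4, h5⟩ := he'
      rw [h2] at h5
      subst h5
      exact h4
    · intro h
      refine ⟨a, (h1 a).mpr rfl, ?_⟩
      rw [walk_split hu.le hk]
      exact ⟨b, h, (h2 b).mpr rfl⟩
  rw [h3]
  constructor
  · rintro ⟨v, h4, h5, h6⟩
    refine ⟨fun t => ren u u' a b c d t (v t), ?_, ?_, fun t h7 h8 => ?_⟩
    · simp [ren, h4]
    · simp [ren, h5, show u' ≠ u by omega]
    · obtain ⟨h9, h10⟩ := h6 t h7 h8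
      refine ⟨h9, ?_⟩
      rw [mem_block_in ⟨h7, h8⟩] at h10
      exact h10
  · rintro ⟨v, h4, h5, h6⟩
    refine ⟨fun t => (ren u u' a b c d t)⁻¹ (v t), ?_, ?_, fun t h7 h8 => ?_⟩
    · simp [ren, h4]
    · simp [ren, h5, show u' ≠ u by omega]
    · obtain ⟨h9, h10⟩ := h6 t h7 h8
      refine ⟨h9, ?_⟩
      rw [mem_block_in ⟨h7, h8⟩]
      simpa using h10

/-- the price of avoiding the negations of the factors in `J`, for networks -/
theorem comp_entry {J : Finset (Fin k)} (hJ : J.Nonempty) (a b : Fin n) {W : Type} [Fintype W]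
    (N : SwitchingNetwork (Fin k × Fin n × Fin n) W)
    (hN : ∀ x, N.Connects x xᶜ ↔ Entry a b x) :
    Comp (entriesOf n J) Set.univ (fun x => Entry a b x)
      (2 * n ^ 2 * (Fintype.card W + 6) * (2 * n) ^ Nat.clog 2 J.card) := by
  classical
  have hn : 1 ≤ n := by
    have := a.2
    omega
  have hC : Calc (fun (f : Set (Fin k × Fin n × Fin n) → Prop) m =>
      Comp (entriesOf n J) Set.univ f m) :=
    { mono := fun h hm => h.mono hm
      congr := fun h hfg => h.congr fun x _ => hfg x
      lit := fun e => comp_lit _ _ e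
      and := fun h h' => h.and h'
      exist := fun {n' m f} hf => by
        have := comp_exists (univ : Finset (Fin n')) (fun i _ => hf i)
        rw [card_univ, Fintype.card_fin] at this
        refine this.congr fun x _ => ?_
        simp }
  have := calc_entry (D := Fintype.card W + 2) hC hJ hn (by
    intro u u' hu hk hseg c d
    by_cases huu : u = u'
    · subst huu
      by_cases hcd : c = d
      · refine ((comp_true _ _).mono ?_).congr fun x _ => ?_
        · omega
        · rw [walk_self]; simp [hcd]
      · refine ((comp_false _ _).mono ?_).congr fun x _ => ?_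
        · omega
        · rw [walk_self]; simp [hcd]
    · have h1 : u < u' := by omega
      refine ((comp_subst N hN (blockMap u u' a b c d) (fun e => e.2.1 = e.2.2)
        (M := entriesOf n J) ?_).mono ?_).congr fun x _ => ?_
      · intro e e' hee' he'
        unfold blockMap at hee'
        split_ifs at hee' with h2
        simp only [Option.some.injEq] at hee'
        subst hee'
        have h3 : e.1 ∈ seg J u u' := by
          unfold seg
          rw [mem_filter]
          exact ⟨he', h2⟩
        rw [hseg] at h3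
        exact absurd h3 (notMem_empty _)
      · omega
      · exact entry_block h1 hk x) a b
  exact this

end block

end Pool.Agent.Lib.Pe46137P
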