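import Pool.Agent.Lib.Pe46137.Pebble

/-!
The dimension argument: a polynomial on the cuts of a path which loses degree on the cuts that
cross a given arc, and its consequence for linear certificates over any field.
-/

namespace Pool.Agent.Lib.Pe46137P

open Finset
open Pool.Agent.Lib.Pe46137 (Inv Inv_empty Inv_lt Inv_move)

variable {K : Type*} [Field K] {l : ℕ}

open Classical in
/-- the pebbling pseudo-expectation -/
noncomputable def pe (K : Type*) [Field K] {l : ℕ} (d : ℕ) (U : Finset (Fin l)) : K :=
  if Inv d (U.map Fin.valEmbedding) then 1 else 0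

theorem pe_empty (d : ℕ) : pe K d (∅ : Finset (Fin l)) = 1 := by
  unfold pe; rw [if_pos]; simpa using Inv_empty d

theorem pe_move {d : ℕ} {U : Finset (Fin l)} {i : Fin l} (hc : (insert i U).card ≤ d)
    (hi : (i : ℕ) = 0 ∨ ∃ j ∈ U, (j : ℕ) + 1 = i) : pe K d (insert i U) = pe K d U := by
  unfold pe
  have h1 : (insert i U).map Fin.valEmbedding = insert (i : ℕ) (U.map Fin.valEmbedding) := by
    rw [Finset.map_insert]; rfl
  have h2 : (insert (i : ℕ) (U.map Fin.valEmbedding)).card ≤ d := by
    rw [← h1, card_map]; exact hc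
  have := Inv_move h2 (by
    rcases hi with h | ⟨j, hj, hji⟩
    · exact Or.inl h
    · exact Or.inr ⟨(j : ℕ), Finset.mem_map_of_mem Fin.valEmbedding hj, hji⟩)
  rw [h1]
  by_cases hI : Inv d (U.map Fin.valEmbedding)
  · rw [if_pos hI, if_pos (this.mp hI)]
  · rw [if_neg hI, if_neg (fun h => hI (this.mpr h))]

theorem pe_last {d : ℕ} {U : Finset (Fin l)} {i : Fin l} (hi : i ∈ U) (hl : 2 ^ d ≤ (i : ℕ) + 1) :
    pe K d U = 0 := by
  unfold pe
  rw [if_neg]
  intro h
  have := Inv_lt h (i : ℕ) (Finset.mem_map_of_mem Fin.valEmbedding hi)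
  omega

/-- the arc number `i` of the path leaves the cut `y` (the positions on the source side; the
source counts as position `-1`, the sink as position `l`) -/
def Crosses (i : ℕ) (y : Finset (Fin l)) : Prop :=
  (∀ j : Fin l, (j : ℕ) + 1 = i → j ∈ y) ∧ ∀ j : Fin l, (j : ℕ) = i → j ∉ y

/-- the monomial of a set -/
def mono {Q : Type*} [DecidableEq Q] (K : Type*) [Field K] (T x : Finset Q) : K :=
  if T ⊆ x then 1 else 0

/-- the polynomial -/
noncomputable def pol (K : Type*) [Field K] {l : ℕ} (d : ℕ) (y : Finset (Fin l)) : K :=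
  ∑ S ∈ univ.filter (y ⊆ ·), (-1) ^ S.card * pe K d S

theorem sum_sign_powerset {α : Type*} [DecidableEq α] (s : Finset α) :
    ∑ T ∈ s.powerset, (-1 : K) ^ T.card = if s = ∅ then 1 else 0 := by
  have h := Finset.sum_powerset_neg_one_pow_card (x := s)
  have h' := congrArg (Int.cast : ℤ → K) h
  push_cast at h'
  rw [h']

/-- the coefficients of the restriction to the cuts crossing arc `i` -/
noncomputable def gam (K : Type*) [Field K] {l : ℕ} (d i : ℕ) (T : Finset (Fin l)) : K :=
  (-1) ^ T.card * ∑ S ∈ univ.filter (fun S : Finset (Fin l) =>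
    (∀ j : Fin l, (j : ℕ) + 1 = i → j ∈ S) ∧ Disjoint T S), (-1) ^ S.card * pe K d S

theorem gam_eq_zero {d : ℕ} (hl : 2 ^ d ≤ l) {i : ℕ} (hi : i ≤ l) {T : Finset (Fin l)}
    (hT : l ≤ T.card + d) (hTB : ∀ j : Fin l, (j : ℕ) = i → j ∉ T) : gam K d i T = 0 := by
  unfold gam
  have hl1 : 1 ≤ l := le_trans Nat.one_le_two_pow hl
  by_cases hil : i = l
  · rw [sum_eq_zero, mul_zero]
    intro S hS
    rw [mem_filter] at hS
    have : (⟨l - 1, by omega⟩ : Fin l) ∈ S := hS.2.1 _ (by simp; omega)
    rw [pe_last this (by simp; omega), mul_zero]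
  · have hil' : i < l := by omega
    set b : Fin l := ⟨i, hil'⟩ with hb
    have hbT : b ∉ T := hTB b rfl
    have hcard : ∀ S : Finset (Fin l), Disjoint T S → S.card ≤ d := by
      intro S hS
      have h1 := card_union_of_disjoint hS
      have h2 : (T ∪ S).card ≤ l := by
        have := card_le_univ (T ∪ S)
        simpa using this
      omega
    have key : ∑ S ∈ univ.filter (fun S : Finset (Fin l) =>
        (∀ j : Fin l, (j : ℕ) + 1 = i → j ∈ S) ∧ Disjoint T S), (-1 : K) ^ S.card * pe K d S = 0 := by
      refine sum_involution (fun S _ => if b ∈ S then S.erase b else insert b S) ?_ ?_ ?_ ?_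
      · intro S hS
        rw [mem_filter] at hS
        by_cases hbS : b ∈ S
        · rw [if_pos hbS]
          have e : insert b (S.erase b) = S := insert_erase hbS
          have h1 : pe K d (insert b (S.erase b)) = pe K d (S.erase b) := by
            refine pe_move ?_ ?_
            · rw [e]; exact hcard S hS.2.2
            · by_cases h0 : i = 0
              · exact Or.inl h0
              · refine Or.inr ⟨⟨i - 1, by omega⟩, ?_, by simp [hb]; omega⟩
                rw [mem_erase]
                refine ⟨?_, hS.2.1 _ (by simp; omega)⟩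
                intro h
                have := congrArg Fin.val h
                simp [hb] at this
                omega
          rw [e] at h1
          rw [← h1]
          have h2 : (S.erase b).card + 1 = S.card := card_erase_add_one hbS
          rw [← h2]
          ring
        · rw [if_neg hbS]
          have hd' : Disjoint T (insert b S) := by
            rw [disjoint_insert_right]; exact ⟨hbT, hS.2.2⟩
          have h1 : pe K d (insert b S) = pe K d S := by
            refine pe_move (hcard _ hd') ?_
            by_cases h0 : i = 0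
            · exact Or.inl h0
            · exact Or.inr ⟨⟨i - 1, by omega⟩, hS.2.1 _ (by simp; omega), by simp [hb]; omega⟩
          rw [h1, card_insert_of_notMem hbS]
          ring
      · intro S hS _
        by_cases hbS : b ∈ S
        · rw [if_pos hbS]
          intro h
          rw [← h] at hbS
          exact (notMem_erase _ _) hbS
        · rw [if_neg hbS]
          intro h
          exact hbS (h ▸ mem_insert_self _ _)
      · intro S hS
        rw [mem_filter] at hS ⊢
        refine ⟨mem_univ _, ?_, ?_⟩
        · intro j hj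
          have hjb : j ≠ b := by
            intro h
            rw [h] at hj
            simp [hb] at hj
          by_cases hbS : b ∈ S
          · rw [if_pos hbS]; exact mem_erase.mpr ⟨hjb, hS.2.1 j hj⟩
          · rw [if_neg hbS]; exact mem_insert_of_mem (hS.2.1 j hj)
        · by_cases hbS : b ∈ S
          · rw [if_pos hbS]; exact hS.2.2.mono_right (erase_subset _ _)
          · rw [if_neg hbS, disjoint_insert_right]; exact ⟨hbT, hS.2.2⟩
      · intro S hS
        by_cases hbS : b ∈ S
        · simp only [hbS, if_true]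
          rw [if_neg (notMem_erase _ _), insert_erase hbS]
        · simp only [hbS, if_false]
          rw [if_pos (mem_insert_self _ _), erase_insert hbS]
    rw [key, mul_zero]

/-- on the cuts that cross arc `i` the polynomial has low degree -/
theorem pol_eq_of_crosses (d : ℕ) {i : ℕ} {y : Finset (Fin l)} (hy : Crosses i y) :
    pol K d y = ∑ T ∈ univ.filter (fun T : Finset (Fin l) => ∀ j : Fin l, (j : ℕ) = i → j ∉ T),
      gam K d i T * mono K T y := by
  classical
  set 𝒮 := univ.filter (fun S : Finset (Fin l) => ∀ j : Fin l, (j : ℕ) + 1 = i → j ∈ S) with h𝒮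
  have h1 : pol K d y = ∑ S ∈ 𝒮, (-1 : K) ^ S.card * pe K d S *
      ∑ T ∈ (univ.filter (fun j : Fin l => j ∉ S ∧ (j : ℕ) ≠ i ∧ j ∈ y)).powerset,
        (-1 : K) ^ T.card := by
    unfold pol
    rw [← sum_filter_add_sum_filter_not 𝒮 (fun S => y ⊆ S)]
    have e2 : ∑ S ∈ 𝒮 with ¬ y ⊆ S, (-1 : K) ^ S.card * pe K d S *
        ∑ T ∈ (univ.filter (fun j : Fin l => j ∉ S ∧ (j : ℕ) ≠ i ∧ j ∈ y)).powerset,
          (-1 : K) ^ T.card = 0 := by
      refine sum_eq_zero fun S hS => ?_
      rw [mem_filter] at hS
      obtain ⟨j, hj, hjS⟩ := not_subset.mp hS.2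
      rw [sum_sign_powerset, if_neg, mul_zero]
      refine Nonempty.ne_empty ⟨j, ?_⟩
      rw [mem_filter]
      exact ⟨mem_univ _, hjS, fun h => hy.2 j h hj, hj⟩
    rw [e2, add_zero]
    have e3 : univ.filter (y ⊆ ·) = 𝒮.filter (fun S => y ⊆ S) := by
      ext S
      simp only [h𝒮, mem_filter, mem_univ, true_and]
      exact ⟨fun h => ⟨fun j hj => h (hy.1 j hj), h⟩, fun h => h.2⟩
    rw [e3]
    refine sum_congr rfl fun S hS => ?_
    rw [mem_filter] at hS
    rw [sum_sign_powerset, if_pos, mul_one]
    rw [filter_eq_empty_iff]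
    rintro j _ ⟨h1, _, h3⟩
    exact h1 (hS.2 h3)
  rw [h1]
  have h2 : ∀ S ∈ 𝒮, (-1 : K) ^ S.card * pe K d S *
      ∑ T ∈ (univ.filter (fun j : Fin l => j ∉ S ∧ (j : ℕ) ≠ i ∧ j ∈ y)).powerset,
        (-1 : K) ^ T.card = ∑ T ∈ univ.filter (fun T : Finset (Fin l) =>
          ∀ j : Fin l, (j : ℕ) = i → j ∉ T), if Disjoint T S then
          ((-1 : K) ^ T.card * ((-1 : K) ^ S.card * pe K d S)) * mono K T y else 0 := by
    intro S _
    rw [mul_sum]
    have e : (univ.filter (fun j : Fin l => j ∉ S ∧ (j : ℕ) ≠ i ∧ j ∈ y)).powerset =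
        (univ.filter (fun T : Finset (Fin l) => ∀ j : Fin l, (j : ℕ) = i → j ∉ T)).filter
          (fun T => Disjoint T S ∧ T ⊆ y) := by
      ext T
      simp only [mem_powerset, mem_filter, mem_univ, true_and]
      constructor
      · intro h
        refine ⟨fun j hj hjT => ?_, ?_, ?_⟩
        · have := h hjT
          simp only [mem_filter, mem_univ, true_and] at this
          exact this.2.1 hj
        · rw [disjoint_left]
          intro j hj
          have := h hj
          simp only [mem_filter, mem_univ, true_and] at this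
          exact this.1
        · intro j hj
          have := h hj
          simp only [mem_filter, mem_univ, true_and] at this
          exact this.2.2
      · rintro ⟨h1, h2, h3⟩ j hj
        simp only [mem_filter, mem_univ, true_and]
        exact ⟨disjoint_left.mp h2 hj, fun h => h1 j h hj, h3 hj⟩
    rw [e, sum_filter]
    refine sum_congr rfl fun T _ => ?_
    unfold mono
    by_cases hD : Disjoint T S <;> by_cases hs : T ⊆ y <;> simp [hD, hs]
    ring
  rw [sum_congr rfl h2, sum_comm]
  refine sum_congr rfl fun T _ => ?_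
  unfold gam
  rw [← sum_filter, filter_filter, mul_sum, sum_mul]

/-- the top coefficient of the polynomial -/
theorem top_pol (d : ℕ) : ∑ y : Finset (Fin l), (-1 : K) ^ y.card * pol K d y = 1 := by
  classical
  unfold pol
  simp_rw [mul_sum, sum_filter]
  rw [sum_comm]
  rw [sum_eq_single ∅]
  · rw [sum_eq_single ∅]
    · simp [pe_empty]
    · intro y _ hy
      rw [if_neg]
      exact fun h => hy (subset_empty.mp h)
    · simp
  · intro S _ hS
    rw [← sum_filter]
    have e : univ.filter (fun y : Finset (Fin l) => y ⊆ S) = S.powerset := by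
      ext y; simp
    rw [e]
    have : ∑ y ∈ S.powerset, (-1 : K) ^ y.card * ((-1) ^ S.card * pe K d S) =
        (∑ y ∈ S.powerset, (-1 : K) ^ y.card) * ((-1) ^ S.card * pe K d S) := by
      rw [sum_mul]
    rw [this, sum_sign_powerset, if_neg hS, zero_mul]
  · simp

/-- positions of the path on the source side of a cut of the ambient set -/
def pull {Q : Type*} [DecidableEq Q] (P : Fin l ↪ Q) (x : Finset Q) : Finset (Fin l) :=
  univ.filter (fun i => P i ∈ x)

theorem mem_pull {Q : Type*} [DecidableEq Q] {P : Fin l ↪ Q} {x : Finset Q} {i : Fin l} :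
    i ∈ pull P x ↔ P i ∈ x := by simp [pull]

theorem pull_map {Q : Type*} [DecidableEq Q] (P : Fin l ↪ Q) (y : Finset (Fin l)) :
    pull P (y.map P) = y := by
  ext i
  rw [mem_pull, mem_map' P]

theorem mono_pull {Q : Type*} [DecidableEq Q] (P : Fin l ↪ Q) (T : Finset (Fin l))
    (x : Finset Q) : mono K T (pull P x) = mono K (T.map P) x := by
  unfold mono
  congr 1
  rw [eq_iff_iff]
  constructor
  · intro h q hq
    obtain ⟨i, hi, rfl⟩ := mem_map.mp hq
    exact mem_pull.mp (h hi)
  · intro h i hi
    exact mem_pull.mpr (h (mem_map_of_mem P hi))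

/-- the alternating sum over the cuts of one path -/
noncomputable def Lam {Q : Type*} [DecidableEq Q] (P : Fin l ↪ Q) (h : Finset Q → K) : K :=
  ∑ y : Finset (Fin l), (-1 : K) ^ y.card * h (y.map P)

theorem Lam_self {Q : Type*} [DecidableEq Q] (P : Fin l ↪ Q) (d : ℕ) :
    Lam P (fun x => pol K d (pull P x)) = 1 := by
  unfold Lam
  simp_rw [pull_map]
  exact top_pol d

theorem Lam_other {Q : Type*} [DecidableEq Q] (P P' : Fin l ↪ Q) (d : ℕ) (j : Fin l)
    (hj : ∀ i, P' i ≠ P j) : Lam P (fun x => pol K d (pull P' x)) = 0 := by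
  classical
  unfold Lam
  have hp : ∀ y : Finset (Fin l), pull P' ((insert j y).map P) = pull P' (y.map P) := by
    intro y
    ext i
    rw [mem_pull, mem_pull, map_insert, mem_insert]
    constructor
    · rintro (h | h)
      · exact absurd h (hj i)
      · exact h
    · exact Or.inr
  refine sum_involution (fun S _ => if j ∈ S then S.erase j else insert j S) ?_ ?_ ?_ ?_
  · intro S _
    by_cases hjS : j ∈ S
    · rw [if_pos hjS]
      have h1 := hp (S.erase j)
      rw [insert_erase hjS] at h1
      simp only [h1]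
      have h2 : (S.erase j).card + 1 = S.card := card_erase_add_one hjS
      rw [← h2]
      ring
    · rw [if_neg hjS]
      simp only [hp S]
      rw [card_insert_of_notMem hjS]
      ring
  · intro S _ _
    by_cases hjS : j ∈ S
    · rw [if_pos hjS]
      intro h
      rw [← h] at hjS
      exact (notMem_erase _ _) hjS
    · rw [if_neg hjS]
      intro h
      exact hjS (h ▸ mem_insert_self _ _)
  · intro S _
    exact mem_univ _
  · intro S _
    by_cases hjS : j ∈ S
    · simp only [hjS, if_true]
      rw [if_neg (notMem_erase _ _), insert_erase hjS]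
    · simp only [hjS, if_false]
      rw [if_pos (mem_insert_self _ _), erase_insert hjS]

section core

variable {V : Type*} [AddCommGroup V] [Module K V] {Q : Type*} [DecidableEq Q]

/-- the functions `x ↦ ∑ T ∈ 𝒯, [T ⊆ x] φ_x(a_T)` -/
noncomputable def synth (𝒯 : Finset (Finset Q)) (φ : Finset Q → V →ₗ[K] K) :
    (𝒯 → V) →ₗ[K] (Finset Q → K) where
  toFun a x := ∑ T : 𝒯, mono K T.1 x * φ x (a T)
  map_add' a b := by
    funext x
    simp [mul_add, sum_add_distrib]
  map_smul' c a := by
    funext x
    simp only [Pi.smul_apply, map_smul, smul_eq_mul, RingHom.id_apply, mul_sum]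
    exact sum_congr rfl fun T _ => by ring

theorem synth_single (𝒯 : Finset (Finset Q)) (φ : Finset Q → V →ₗ[K] K) {T : Finset Q}
    (hT : T ∈ 𝒯) (a : V) : (fun x => mono K T x * φ x a) ∈ LinearMap.range (synth 𝒯 φ) := by
  classical
  refine ⟨Pi.single ⟨T, hT⟩ a, ?_⟩
  funext x
  change ∑ T' : 𝒯, mono K T'.1 x * φ x ((Pi.single (⟨T, hT⟩ : 𝒯) a : 𝒯 → V) T') = _
  rw [sum_eq_single (⟨T, hT⟩ : 𝒯)]
  · rw [Pi.single_eq_same]
  · intro T' _ hne
    rw [Pi.single_eq_of_ne hne, map_zero, mul_zero]
  · simp

/-- THE DIMENSION ARGUMENT, general form: `rows` which multiply a family of vectors spanning the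
target into low degree functions -/
theorem core_rows [FiniteDimensional K V] {F : Type*} [Fintype F] {d : ℕ}
    (P : F → (Fin l ↪ Q)) (hP : ∀ f g, f ≠ g → ∃ j, ∀ i, P g i ≠ P f j)
    (𝒯 : Finset (Finset Q)) (φ : Finset Q → V →ₗ[K] K) (b : V) (hb : ∀ x, φ x b = 1)
    (hspan : ∀ f, b ∈ Submodule.span K {a : V | (fun x => pol K d (pull (P f) x) * φ x a) ∈
      LinearMap.range (synth 𝒯 φ)}) :
    Fintype.card F ≤ 𝒯.card * Module.finrank K V := by
  classical
  set r : F → (Finset Q → K) := fun f x => pol K d (pull (P f) x) with hr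
  have hmem : ∀ f, r f ∈ LinearMap.range (synth 𝒯 φ) := by
    intro f
    have key : ∀ a ∈ Submodule.span K {a : V | (fun x => pol K d (pull (P f) x) * φ x a) ∈
        LinearMap.range (synth 𝒯 φ)}, (fun x => pol K d (pull (P f) x) * φ x a) ∈
        LinearMap.range (synth 𝒯 φ) := by
      intro a ha
      induction ha using Submodule.span_induction with
      | mem a h => exact h
      | zero =>
        have : (fun x => pol K d (pull (P f) x) * φ x (0 : V)) = 0 := by
          funext x; simp
        rw [this]; exact Submodule.zero_mem _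
      | add a a' _ _ h h' =>
        have : (fun x => pol K d (pull (P f) x) * φ x (a + a')) =
            (fun x => pol K d (pull (P f) x) * φ x a) +
              (fun x => pol K d (pull (P f) x) * φ x a') := by
          funext x
          simp [mul_add]
        rw [this]; exact Submodule.add_mem _ h h'
      | smul c a _ h =>
        have : (fun x => pol K d (pull (P f) x) * φ x (c • a)) =
            c • (fun x => pol K d (pull (P f) x) * φ x a) := by
          funext x
          simp only [map_smul, smul_eq_mul, Pi.smul_apply]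
          ring
        rw [this]; exact Submodule.smul_mem _ _ h
    have := key b (hspan f)
    simp only [hb, mul_one] at this
    exact this
  have hind : LinearIndependent K r := by
    rw [Fintype.linearIndependent_iff]
    intro c hc g
    have h1 : Lam (P g) (∑ f, c f • r f) = c g := by
      have e : Lam (P g) (∑ f, c f • r f) = ∑ f, c f * Lam (P g) (r f) := by
        unfold Lam
        simp only [Finset.sum_apply, Pi.smul_apply, smul_eq_mul, mul_sum]
        rw [sum_comm]
        exact sum_congr rfl fun f _ => sum_congr rfl fun y _ => by ring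
      rw [e, sum_eq_single g]
      · rw [hr]
        simp only
        rw [Lam_self, mul_one]
      · intro f _ hne
        obtain ⟨j, hj⟩ := hP g f (Ne.symm hne)
        rw [hr]
        simp only
        rw [Lam_other (P g) (P f) d j hj, mul_zero]
      · simp
    rw [hc] at h1
    rw [← h1]
    unfold Lam
    simp
  have h2 : Fintype.card F ≤ Module.finrank K (LinearMap.range (synth 𝒯 φ)) := by
    have h3 : LinearIndependent K (fun f => (⟨r f, hmem f⟩ : LinearMap.range (synth 𝒯 φ))) := by
      refine LinearIndependent.of_comp (LinearMap.range (synth 𝒯 φ)).subtype ?_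
      exact hind
    exact h3.fintype_card_le_finrank
  refine h2.trans ((LinearMap.finrank_range_le _).trans ?_)
  rw [Module.finrank_pi_fintype]
  simp

end core

/-- THE DIMENSION ARGUMENT for certificates by single arcs. The polynomial loses `d + 1` degrees
on the cuts that cross one arc. -/
theorem core_one {V : Type*} [AddCommGroup V] [Module K V] [FiniteDimensional K V] {Q : Type*}
    [DecidableEq Q] {F : Type*} [Fintype F] {d : ℕ} (hl : 2 ^ d ≤ l)
    (P : F → (Fin l ↪ Q)) (hP : ∀ f g, f ≠ g → ∃ j, ∀ i, P g i ≠ P f j)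
    (𝒯 : Finset (Finset Q))
    (h𝒯 : ∀ f (U : Finset (Fin l)), U.card + d + 1 ≤ l → U.map (P f) ∈ 𝒯)
    (φ : Finset Q → V →ₗ[K] K) (b : V) (hb : ∀ x, φ x b = 1)
    (hspan : ∀ f, b ∈ Submodule.span K {a : V | ∃ i ≤ l, ∀ x, ¬ Crosses i (pull (P f) x) →
      φ x a = 0}) :
    Fintype.card F ≤ 𝒯.card * Module.finrank K V := by
  classical
  refine core_rows (d := d) P hP 𝒯 φ b hb (fun f => ?_)
  refine Submodule.span_mono ?_ (hspan f)
  rintro a ⟨i, hi, ha⟩
  have e : (fun x => pol K d (pull (P f) x) * φ x a) =
      ∑ T ∈ univ.filter (fun T : Finset (Fin l) => ∀ j : Fin l, (j : ℕ) = i → j ∉ T),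
        gam K d i T • (fun x => mono K (T.map (P f)) x * φ x a) := by
    funext x
    by_cases hc : Crosses i (pull (P f) x)
    · rw [pol_eq_of_crosses d hc, sum_mul, Finset.sum_apply]
      refine sum_congr rfl fun T _ => ?_
      rw [mono_pull, Pi.smul_apply, smul_eq_mul]
      ring
    · rw [ha x hc, mul_zero, Finset.sum_apply, sum_eq_zero]
      intro T _
      simp [ha x hc]
  change (fun x => pol K d (pull (P f) x) * φ x a) ∈ LinearMap.range (synth 𝒯 φ)
  rw [e]
  refine Submodule.sum_mem _ fun T hT => ?_
  rw [mem_filter] at hT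
  by_cases hTc : l ≤ T.card + d
  · rw [gam_eq_zero hl hi hTc hT.2, zero_smul]
    exact Submodule.zero_mem _
  · exact Submodule.smul_mem _ _ (synth_single 𝒯 φ (h𝒯 f T (by omega)) a)

end Pool.Agent.Lib.Pe46137P
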