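import Mathlib

/-!
Binomial estimates for the lower bound.
-/

namespace Pool.Agent.Lib.Pe46137P

open Finset

theorem clog_succ {l : ℕ} (hl : 1 ≤ l) : Nat.clog 2 (l + 1) = Nat.log 2 l + 1 := by
  apply le_antisymm
  · refine Nat.clog_le_of_le_pow ?_
    exact Nat.lt_pow_succ_log_self (by norm_num) l
  · have h1 : Nat.log 2 l < Nat.clog 2 (l + 1) := by
      rw [Nat.lt_clog_iff_pow_lt (by norm_num)]
      have := Nat.pow_log_le_self 2 (show l ≠ 0 by omega)
      omega
    omega

/-- the partial sums of a binomial expansion are dominated by twice the last term -/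
theorem sum_choose_le {l n : ℕ} (hn : l ≤ n) : ∀ D, D + 1 ≤ l →
    ∑ j ∈ range (D + 1), l.choose j * n ^ j ≤ 2 * (l.choose D * n ^ D) := by
  intro D
  induction D with
  | zero => intro _; simp
  | succ D ih =>
    intro hD
    rw [sum_range_succ]
    have h1 := ih (by omega)
    have h2 : 2 * (l.choose D * n ^ D) ≤ l.choose (D + 1) * n ^ (D + 1) := by
      have h3 : l.choose (D + 1) * (D + 1) = l.choose D * (l - D) := Nat.choose_succ_right_eq l D
      have h4 : 2 * (D + 1) ≤ (l - D) * n := by
        have h5 : 2 ≤ l - D := by omega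
        calc 2 * (D + 1) ≤ (l - D) * (D + 1) := Nat.mul_le_mul_right _ h5
          _ ≤ (l - D) * n := Nat.mul_le_mul_left _ (by omega)
      have h6 : (2 * (l.choose D * n ^ D)) * (D + 1) ≤ (l.choose (D + 1) * n ^ (D + 1)) * (D + 1) := by
        calc (2 * (l.choose D * n ^ D)) * (D + 1) = l.choose D * n ^ D * (2 * (D + 1)) := by ring
          _ ≤ l.choose D * n ^ D * ((l - D) * n) := Nat.mul_le_mul_left _ h4
          _ = (l.choose D * (l - D)) * n ^ (D + 1) := by ring
          _ = (l.choose (D + 1) * (D + 1)) * n ^ (D + 1) := by rw [h3]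
          _ = (l.choose (D + 1) * n ^ (D + 1)) * (D + 1) := by ring
      exact Nat.le_of_mul_le_mul_right h6 (by omega)
    omega

/-- from the dimension count to the final bound -/
theorem final_count {l n m : ℕ} (hl : 1 ≤ l)
    (h : n ^ l ≤ (∑ j ∈ range (l - Nat.log 2 l), l.choose j * n ^ j) * m) :
    n ^ (Nat.log 2 l + 1) ≤ (l + 1) ^ (Nat.log 2 l + 1) * m := by
  set d := Nat.log 2 l with hd
  have hdl : d < l := by
    have h1 : 2 ^ d ≤ l := Nat.pow_log_le_self 2 (by omega)
    have h2 : d < 2 ^ d := Nat.lt_two_pow_self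
    omega
  rcases Nat.eq_zero_or_pos n with hn0 | hn0
  · subst hn0
    simp
  have hm : 1 ≤ m := by
    by_contra hc
    have : m = 0 := by omega
    rw [this, mul_zero] at h
    have : 0 < n ^ l := by positivity
    omega
  by_cases hn : n < l
  · calc n ^ (d + 1) ≤ (l + 1) ^ (d + 1) := Nat.pow_le_pow_left (by omega) _
      _ = (l + 1) ^ (d + 1) * 1 := (mul_one _).symm
      _ ≤ (l + 1) ^ (d + 1) * m := Nat.mul_le_mul_left _ hm
  · push Not at hn
    obtain ⟨D, hD⟩ : ∃ D, l - d = D + 1 := ⟨l - d - 1, by omega⟩
    have hlD : l = D + (d + 1) := by omega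
    rcases Nat.eq_zero_or_pos d with hd0 | hd0
    · -- `l = 1`
      have hl1 : l = 1 := by
        have h1 : l < 2 ^ (d + 1) := Nat.lt_pow_succ_log_self (by norm_num) l
        rw [hd0] at h1
        omega
      have hD0 : D = 0 := by omega
      rw [hD, hD0, hl1] at h
      simp only [zero_add, range_one, sum_singleton, Nat.choose_zero_right, pow_zero, mul_one,
        one_mul, pow_one] at h
      rw [hd0, hl1]
      simp only [zero_add, pow_one]
      omega
    · rw [hD] at h
      have h1 := sum_choose_le hn D (by omega)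
      have h2 : n ^ (d + 1) * n ^ D ≤ (2 * (l.choose D) * m) * n ^ D := by
        calc n ^ (d + 1) * n ^ D = n ^ l := by rw [← pow_add]; congr 1; omega
          _ ≤ (∑ j ∈ range (D + 1), l.choose j * n ^ j) * m := h
          _ ≤ (2 * (l.choose D * n ^ D)) * m := Nat.mul_le_mul_right _ h1
          _ = (2 * (l.choose D) * m) * n ^ D := by ring
      have h3 : n ^ (d + 1) ≤ 2 * l.choose D * m :=
        Nat.le_of_mul_le_mul_right h2 (by positivity)
      have h4 : l.choose D = l.choose (d + 1) := by
        rw [← Nat.choose_symm (show D ≤ l by omega)]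
        congr 1
        omega
      have h5 : 2 * l.choose (d + 1) ≤ l ^ (d + 1) := by
        have h6 : (d + 1).factorial * l.choose (d + 1) = l.descFactorial (d + 1) :=
          (Nat.descFactorial_eq_factorial_mul_choose l (d + 1)).symm
        have h7 : 2 ≤ (d + 1).factorial := by
          have : (2 : ℕ).factorial ≤ (d + 1).factorial := Nat.factorial_le (by omega)
          simpa using this
        calc 2 * l.choose (d + 1) ≤ (d + 1).factorial * l.choose (d + 1) :=
              Nat.mul_le_mul_right _ h7
          _ = l.descFactorial (d + 1) := h6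
          _ ≤ l ^ (d + 1) := Nat.descFactorial_le_pow _ _
      calc n ^ (d + 1) ≤ 2 * l.choose D * m := h3
        _ = 2 * l.choose (d + 1) * m := by rw [h4]
        _ ≤ l ^ (d + 1) * m := Nat.mul_le_mul_right _ h5
        _ ≤ (l + 1) ^ (d + 1) * m := Nat.mul_le_mul_right _ (Nat.pow_le_pow_left (by omega) _)

end Pool.Agent.Lib.Pe46137P
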