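import Pool.Agent.Lib.Pe46137P.SCalc

/-!
Span programs for path counts in acyclic graphs whose edges carry literals.
-/

namespace Pool.Agent.Lib.Pe46137P

open Finset

variable {E A B : Type} [Fintype A] [DecidableEq A] [Fintype B] [DecidableEq B]

/-- the value at `σ` of the counting recursion is nonzero: a span program whose dimension is the
number of nodes and edges -/
theorem scomp_dag (K : Type) [Field K] {M : Set E} (src dst : B → A) (lab : B → E) (σ τ : A)
    (rank : A → ℕ) (hrank : ∀ b, rank (dst b) < rank (src b)) (hM : ∀ b, lab b ∉ M)
    (F : Set E → A → K) (hτ : ∀ x, F x τ = 1)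
    (hF : ∀ x a, a ≠ τ → F x a = ∑ b : B, (open Classical in
      if src b = a ∧ lab b ∈ x then F x (dst b) else 0)) :
    SComp K M (fun x => F x σ ≠ 0) (Fintype.card A + Fintype.card B) := by
  classical
  set δ : A ⊕ B → (A ⊕ B → K) := fun v => Pi.single v 1 with hδ
  set S : SpanProgram E (A ⊕ B → K) := ⟨δ (Sum.inl τ),
    insert (δ (Sum.inl σ)) {u | ∃ a, a ≠ τ ∧
      u = δ (Sum.inl a) - ∑ b : B, if src b = a then δ (Sum.inr b) else 0},
    fun e => {u | ∃ b, lab b = e ∧ u = δ (Sum.inr b) - δ (Sum.inl (dst b))},
    fun e => {u | ∃ b, lab b = e ∧ u = δ (Sum.inr b)}⟩ with hS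
  refine ⟨A ⊕ B → K, inferInstance, inferInstance, S, inferInstance, ?_, ?_, fun x => ?_⟩
  · rw [Module.finrank_fintype_fun_eq_card, Fintype.card_sum]
  · intro e he
    ext u
    simp only [hS, Set.mem_ofPred_eq, Set.mem_empty_iff_false, iff_false, not_exists, not_and]
    intro b hb
    exact absurd (hb ▸ he) (hM b)
  · -- the available vectors
    have m1 : δ (Sum.inl σ) ∈ Submodule.span K (S.available x) :=
      Submodule.subset_span (Or.inl (Or.inl rfl))
    have m2 : ∀ a, a ≠ τ → δ (Sum.inl a) - ∑ b : B, (if src b = a then δ (Sum.inr b) else 0) ∈
        Submodule.span K (S.available x) := fun a ha =>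
      Submodule.subset_span (Or.inl (Or.inr ⟨a, ha, rfl⟩))
    have m3 : ∀ b, lab b ∈ x → δ (Sum.inr b) - δ (Sum.inl (dst b)) ∈
        Submodule.span K (S.available x) := fun b hb => by
      refine Submodule.subset_span (Or.inr (Or.inl ?_))
      simp only [Set.mem_iUnion]
      exact ⟨lab b, hb, b, rfl, rfl⟩
    have m4 : ∀ b, lab b ∉ x → δ (Sum.inr b) ∈ Submodule.span K (S.available x) := fun b hb => by
      refine Submodule.subset_span (Or.inr (Or.inr ?_))
      simp only [Set.mem_iUnion]
      exact ⟨lab b, hb, b, rfl, rfl⟩
    change δ (Sum.inl τ) ∈ Submodule.span K (S.available x) ↔ F x σ ≠ 0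
    constructor
    · intro h h0
      set val : A ⊕ B → K := Sum.elim (F x) (fun b => if lab b ∈ x then F x (dst b) else 0)
        with hval
      set ψ : (A ⊕ B → K) →ₗ[K] K := ∑ v : A ⊕ B, val v • LinearMap.proj v with hψ
      have hψδ : ∀ v, ψ (δ v) = val v := by
        intro v
        rw [hψ, LinearMap.sum_apply]
        simp only [hδ, LinearMap.smul_apply, LinearMap.proj_apply, Pi.single_apply, smul_eq_mul]
        rw [sum_eq_single v]
        · simp
        · intro w _ hw
          simp [hw]
        · simp
      have hker : ∀ u ∈ Submodule.span K (S.available x), ψ u = 0 := by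
        intro u hu
        induction hu using Submodule.span_induction with
        | mem u hu =>
          rcases hu with (rfl | ⟨a, ha, rfl⟩) | hu | hu
          · rw [hψδ]; exact h0
          · rw [map_sub, map_sum, hψδ, sub_eq_zero]
            change F x a = _
            rw [hF x a ha]
            refine sum_congr rfl fun b _ => ?_
            by_cases h1 : src b = a
            · by_cases h2 : lab b ∈ x
              · rw [if_pos ⟨h1, h2⟩, if_pos h1, hψδ]
                simp [hval, h2]
              · rw [if_neg (fun h => h2 h.2), if_pos h1, hψδ]
                simp [hval, h2]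
            · rw [if_neg (fun h => h1 h.1), if_neg h1, map_zero]
          · simp only [Set.mem_iUnion] at hu
            obtain ⟨e, he, b, hb, rfl⟩ := hu
            rw [map_sub, hψδ, hψδ]
            simp [hval, hb, he]
          · simp only [Set.mem_iUnion] at hu
            obtain ⟨e, he, b, hb, rfl⟩ := hu
            rw [hψδ]
            have : lab b ∉ x := by rw [hb]; exact he
            simp [hval, this]
        | zero => simp
        | add u u' _ _ h h' => rw [map_add, h, h', add_zero]
        | smul c u _ h => rw [map_smul, h, smul_zero]
      have h1 := hker _ h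
      rw [hψδ] at h1
      change F x τ = 0 at h1
      rw [hτ] at h1
      exact one_ne_zero h1
    · intro h0
      have key : ∀ N : ℕ, ∀ a, rank a < N → δ (Sum.inl a) - F x a • δ (Sum.inl τ) ∈
          Submodule.span K (S.available x) := by
        intro N
        induction N with
        | zero => intro a ha; omega
        | succ N ih =>
          intro a ha
          by_cases haτ : a = τ
          · subst haτ
            rw [hτ, one_smul, sub_self]
            exact Submodule.zero_mem _
          · have e1 : δ (Sum.inl a) - F x a • δ (Sum.inl τ) =
                (δ (Sum.inl a) - ∑ b : B, (if src b = a then δ (Sum.inr b) else 0)) +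
                ∑ b : B, ((if src b = a then δ (Sum.inr b) else 0) -
                  (if src b = a ∧ lab b ∈ x then F x (dst b) else 0) • δ (Sum.inl τ)) := by
              rw [sum_sub_distrib, ← sum_smul, ← hF x a haτ]
              abel
            rw [e1]
            refine Submodule.add_mem _ (m2 a haτ) (Submodule.sum_mem _ fun b _ => ?_)
            by_cases h1 : src b = a
            · by_cases h2 : lab b ∈ x
              · rw [if_pos h1, if_pos (show src b = a ∧ lab b ∈ x from ⟨h1, h2⟩)]
                have e2 : δ (Sum.inr b) - F x (dst b) • δ (Sum.inl τ) =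
                    (δ (Sum.inr b) - δ (Sum.inl (dst b))) +
                      (δ (Sum.inl (dst b)) - F x (dst b) • δ (Sum.inl τ)) := by abel
                rw [e2]
                refine Submodule.add_mem _ (m3 b h2) (ih (dst b) ?_)
                have := hrank b
                rw [h1] at this
                omega
              · rw [if_pos h1, if_neg (show ¬ (src b = a ∧ lab b ∈ x) from fun h => h2 h.2),
                  zero_smul, sub_zero]
                exact m4 b h2
            · rw [if_neg h1, if_neg (show ¬ (src b = a ∧ lab b ∈ x) from fun h => h1 h.1),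
                zero_smul, sub_zero]
              exact Submodule.zero_mem _
      have h1 := key (rank σ + 1) σ (by omega)
      have h2 : F x σ • δ (Sum.inl τ) ∈ Submodule.span K (S.available x) := by
        have := Submodule.sub_mem _ m1 h1
        rwa [sub_sub_cancel] at this
      have h3 := Submodule.smul_mem _ (F x σ)⁻¹ h2
      rwa [smul_smul, inv_mul_cancel₀ h0, one_smul] at h3

end Pool.Agent.Lib.Pe46137P
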