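import Pool.Agent.Lib.Pe46137.PriceDefs

/-!
Formulas, span programs, and products of Boolean matrices.
-/

namespace Pool.Agent.Lib.Pe46137P

/-- Boolean formulas over variables indexed by `E`, with negations at the leaves only -/
inductive Formula (E : Type) where
  | var (e : E) : Formula E
  | nvar (e : E) : Formula E
  | top : Formula E
  | bot : Formula E
  | and (φ ψ : Formula E) : Formula E
  | or (φ ψ : Formula E) : Formula E

namespace Formula

variable {E : Type}

/-- the number of leaves -/
def leaves : Formula E → ℕ
  | var _ => 1
  | nvar _ => 1
  | top => 1
  | bot => 1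
  | and φ ψ => φ.leaves + ψ.leaves
  | or φ ψ => φ.leaves + ψ.leaves

/-- the truth value when exactly the variables in `x` are true -/
def Eval (x : Set E) : Formula E → Prop
  | var e => e ∈ x
  | nvar e => e ∉ x
  | top => True
  | bot => False
  | and φ ψ => φ.Eval x ∧ ψ.Eval x
  | or φ ψ => φ.Eval x ∨ ψ.Eval x

/-- no leaf is the negation of a variable in `M` -/
def Avoids (M : Set E) : Formula E → Prop
  | var _ => True
  | nvar e => e ∉ M
  | top => True
  | bot => True
  | and φ ψ => φ.Avoids M ∧ ψ.Avoids M
  | or φ ψ => φ.Avoids M ∧ ψ.Avoids M

end Formula

/-- a span program over the field `K` in the vector space `V` with variables indexed by `E`: a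
target vector, and vectors that are always available (`free`), available if variable `e` is true
(`pos e`), or available if variable `e` is false (`neg e`) -/
structure SpanProgram (E V : Type) where
  target : V
  free : Set V
  pos : E → Set V
  neg : E → Set V

namespace SpanProgram

variable {E V : Type}

/-- the vectors available when exactly the variables in `x` are true -/
def available (S : SpanProgram E V) (x : Set E) : Set V :=
  S.free ∪ ((⋃ e ∈ x, S.pos e) ∪ ⋃ e ∈ xᶜ, S.neg e)

/-- the target is a linear combination over `K` of vectors available when exactly the variables in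
`x` are true -/
def Accepts (K : Type) [Field K] [AddCommGroup V] [Module K V] (S : SpanProgram E V)
    (x : Set E) : Prop :=
  S.target ∈ Submodule.span K (S.available x)

/-- no vector is labelled by the negation of a variable in `M` -/
def Avoids (S : SpanProgram E V) (M : Set E) : Prop := ∀ e ∈ M, S.neg e = ∅

end SpanProgram

/-- the `(a, b)` entry of the product of `k` Boolean `n × n` matrices is `1`; the variable
`(i, c, c')` is the `(c, c')` entry of the `i`-th factor, and `x` is the set of true variables -/
def Entry {n k : ℕ} (a b : Fin n) (x : Set (Fin k × Fin n × Fin n)) : Prop :=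
  ∃ v : Fin (k + 1) → Fin n, v 0 = a ∧ v (Fin.last k) = b ∧
    ∀ i : Fin k, (i, v i.castSucc, v i.succ) ∈ x

/-- the entries of the factors with index in `J` -/
def entriesOf (n : ℕ) {k : ℕ} (J : Finset (Fin k)) : Set (Fin k × Fin n × Fin n) :=
  {e | e.1 ∈ J}

end Pool.Agent.Lib.Pe46137P
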