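import Pool.Agent.Lib.Pe46137P.Walk

/-!
Monotone formulas for products of Boolean matrices.
-/

namespace Pool.Agent.Lib.Pe46137P

open Finset

variable {E : Type}

/-- `f` is computed by a formula with at most `m` leaves and without negations -/
def FComp (f : Set E → Prop) (m : ℕ) : Prop :=
  ∃ φ : Formula E, φ.Avoids Set.univ ∧ φ.leaves ≤ m ∧ ∀ x, φ.Eval x ↔ f x

theorem fcomp_exists {ι : Type*} {s : Finset ι} (hs : s.Nonempty) {f : ι → Set E → Prop} {m : ℕ}
    (hf : ∀ i ∈ s, FComp (f i) m) : FComp (fun x => ∃ i ∈ s, f i x) (s.card * m) := by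
  classical
  induction s using Finset.induction_on with
  | empty => exact absurd hs Finset.not_nonempty_empty
  | insert i s hi ih =>
    obtain ⟨φ, h1, h2, h3⟩ := hf i (mem_insert_self _ _)
    rcases s.eq_empty_or_nonempty with h0 | h0
    · subst h0
      refine ⟨φ, h1, by simpa using h2, fun x => ?_⟩
      rw [h3]
      simp
    · obtain ⟨ψ, g1, g2, g3⟩ := ih h0 (fun j hj => hf j (mem_insert_of_mem hj))
      refine ⟨Formula.or φ ψ, ⟨h1, g1⟩, ?_, fun x => ?_⟩
      · simp only [Formula.leaves]
        rw [card_insert_of_notMem hi]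
        have : (s.card + 1) * m = s.card * m + m := by ring
        omega
      · simp only [Formula.Eval]
        rw [h3, g3]
        simp

theorem FComp.and {f g : Set E → Prop} {m m' : ℕ} (hf : FComp f m) (hg : FComp g m') :
    FComp (fun x => f x ∧ g x) (m + m') := by
  obtain ⟨φ, h1, h2, h3⟩ := hf
  obtain ⟨ψ, g1, g2, g3⟩ := hg
  refine ⟨Formula.and φ ψ, ⟨h1, g1⟩, ?_, fun x => ?_⟩
  · simp only [Formula.leaves]; omega
  · simp only [Formula.Eval]
    rw [h3, g3]

/-- Savitch's recursion -/
theorem formula_walk {n k : ℕ} (hn : 1 ≤ n) : ∀ s u len, 1 ≤ len → len ≤ 2 ^ s → u + len ≤ k →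
    ∀ c d : Fin n, FComp (fun x : Set (Fin k × Fin n × Fin n) => Walk x u (u + len) c d)
      ((2 * n) ^ s) := by
  intro s
  induction s with
  | zero =>
    intro u len h1 h2 h3 c d
    have : len = 1 := by simpa using Nat.le_antisymm h2 h1
    subst this
    refine ⟨Formula.var (⟨u, by omega⟩, c, d), trivial, by simp [Formula.leaves], fun x => ?_⟩
    exact (walk_one (x := x) (show u < k by omega)).symm
  | succ s ih =>
    intro u len h1 h2 h3 c d
    by_cases hl : len = 1
    · subst hl
      refine ⟨Formula.var (⟨u, by omega⟩, c, d), trivial, ?_, fun x => ?_⟩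
      · simp only [Formula.leaves]
        exact Nat.one_le_pow _ _ (by omega)
      · exact (walk_one (x := x) (show u < k by omega)).symm
    · set p := len / 2 with hp
      have hpow : 2 ^ (s + 1) = 2 * 2 ^ s := by ring
      have : NeZero n := ⟨by omega⟩
      have h4 : ∀ e ∈ (univ : Finset (Fin n)), FComp (fun x : Set (Fin k × Fin n × Fin n) =>
          Walk x u (u + p) c e ∧ Walk x (u + p) (u + p + (len - p)) e d)
          ((2 * n) ^ s + (2 * n) ^ s) := fun e _ =>
        (ih u p (by omega) (by omega) (by omega) c e).and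
          (ih (u + p) (len - p) (by omega) (by omega) (by omega) e d)
      obtain ⟨φ, g1, g2, g3⟩ := fcomp_exists (univ_nonempty) h4
      refine ⟨φ, g1, ?_, fun x => ?_⟩
      · rw [card_univ, Fintype.card_fin] at g2
        calc φ.leaves ≤ n * ((2 * n) ^ s + (2 * n) ^ s) := g2
          _ = (2 * n) ^ (s + 1) := by ring
      · rw [g3]
        rw [show u + p + (len - p) = u + len by omega]
        change (∃ e ∈ (univ : Finset (Fin n)), _) ↔ Walk x u (u + len) c d
        rw [walk_split (show u ≤ u + p by omega) (show u + p ≤ u + len by omega)]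
        simp

/-- a monotone formula for an entry of the product -/
theorem formula_entry {n k : ℕ} (hk : 1 ≤ k) (a b : Fin n) :
    ∃ φ : Formula (Fin k × Fin n × Fin n), φ.Avoids Set.univ ∧
      φ.leaves ≤ (2 * n) ^ Nat.clog 2 k ∧ ∀ x, φ.Eval x ↔ Entry a b x := by
  have hn : 1 ≤ n := by
    have := a.2
    omega
  obtain ⟨φ, h1, h2, h3⟩ := formula_walk (k := k) hn (Nat.clog 2 k) 0 k hk
    (Nat.le_pow_clog (by norm_num) _) (by omega) a b
  refine ⟨φ, h1, h2, fun x => ?_⟩
  rw [h3, zero_add]
  exact walk_all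

end Pool.Agent.Lib.Pe46137P
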