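import Pool.Agent.Lib.Pe46137P.Paths

/-!
Blocks of consecutive factors, and entries, by span programs of polynomial dimension over every
field.
-/

namespace Pool.Agent.Lib.Pe46137P

open Finset

variable {n k : ℕ}

/-- weights indexed by natural numbers -/
def extW {L N : ℕ} (w : Fin L → Fin n → Fin N) (r : ℕ) (p : Fin n) : ℕ :=
  if h : r < L then (w ⟨r, h⟩ p : ℕ) else 0

theorem wt_extW {L N : ℕ} (w : Fin L → Fin n → Fin N) (v : Fin L → Fin n) :
    wt (extW w) L v = wgt w (fun j => v (Fin.rev j)) := by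
  unfold wt wgt
  rw [← Equiv.sum_comp Fin.revPerm]
  refine sum_congr rfl fun j _ => ?_
  simp only [Fin.revPerm_apply, Fin.val_rev]
  unfold extW
  rw [dif_pos (by have := j.2; omega)]
  congr 2
  apply Fin.ext
  simp only
  omega

theorem wt_extW_le {L N : ℕ} (w : Fin L → Fin n → Fin N) (v : Fin L → Fin n) :
    wt (extW w) L v ≤ L * N := by
  rw [wt_extW]
  unfold wgt
  calc ∑ j, (w j (v (Fin.rev j)) : ℕ) ≤ ∑ _j : Fin L, N := sum_le_sum fun j _ => (w j _).2.le
    _ = L * N := by simp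

/-- small family of weights, one of which isolates a walk whenever there is a walk -/
theorem exists_weights {L u' : ℕ} (hn : 1 ≤ n) (hL : 1 ≤ L) (c d : Fin n) :
    ∃ ws : Finset (Fin L → Fin n → Fin (2 * (L * n))), ws.card ≤ k * n ^ 2 + 1 ∧
      ∀ x : Set (Fin k × Fin n × Fin n), (∃ v, IsW x u' d L c v) → ∃ w ∈ ws,
        ∃ s, s ≤ L * (2 * (L * n)) ∧ cnt x u' d (extW w) L c s = 1 := by
  classical
  have hpos : 0 < 2 * (L * n) := by positivity
  have : NeZero (2 * (L * n)) := ⟨hpos.ne'⟩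
  set 𝒱 : Set (Fin k × Fin n × Fin n) → Finset (Fin L → Fin n) := fun x =>
    (univ.filter (fun v : Fin L → Fin n => IsW x u' d L c v)).image
      (fun v j => v (Fin.rev j)) with h𝒱
  obtain ⟨ws, h1, h2⟩ := greedy (X := Set (Fin k × Fin n × Fin n))
    (Ω := Fin L → Fin n → Fin (2 * (L * n))) (fun x w => Isolates w (𝒱 x)) (k * n ^ 2 + 1)
    (univ.filter (fun x => ∃ v, IsW x u' d L c v))
    (by
      intro x hx
      rw [mem_filter] at hx
      obtain ⟨v, hv⟩ := hx.2
      have h3 := isolation (N := 2 * (L * n)) (𝒱 x)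
        ⟨fun j => v (Fin.rev j), mem_image.mpr ⟨v, mem_filter.mpr ⟨mem_univ _, hv⟩, rfl⟩⟩
      have h4 : 0 < L * n := by positivity
      have h5 : (2 * (univ.filter (fun w : Fin L → Fin n → Fin (2 * (L * n)) =>
          ¬ Isolates w (𝒱 x))).card) * (L * n) ≤
          Fintype.card (Fin L → Fin n → Fin (2 * (L * n))) * (L * n) := by
        calc _ = (univ.filter (fun w : Fin L → Fin n → Fin (2 * (L * n)) =>
              ¬ Isolates w (𝒱 x))).card * (2 * (L * n)) := by ring
          _ ≤ L * n * Fintype.card (Fin L → Fin n → Fin (2 * (L * n))) := by convert h3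
          _ = _ := by ring
      exact Nat.le_of_mul_le_mul_right h5 h4)
    (by
      refine lt_of_le_of_lt (card_filter_le _ _) ?_
      rw [card_univ, Fintype.card_set, Fintype.card_prod, Fintype.card_prod, Fintype.card_fin,
        Fintype.card_fin]
      refine Nat.pow_lt_pow_right (by norm_num) ?_
      have : k * (n * n) = k * n ^ 2 := by ring
      omega)
  refine ⟨ws, h1, fun x hx => ?_⟩
  obtain ⟨w, hw, v0, hv0, hmin⟩ := h2 x (mem_filter.mpr ⟨mem_univ _, hx⟩)
  refine ⟨w, hw, ?_⟩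
  obtain ⟨v, hv, rfl⟩ := mem_image.mp hv0
  refine ⟨wt (extW w) L v, wt_extW_le w v, ?_⟩
  unfold cnt
  rw [card_eq_one]
  refine ⟨v, ?_⟩
  ext v'
  simp only [mem_filter, mem_univ, true_and, mem_singleton]
  constructor
  · rintro ⟨h3, h4⟩
    by_contra hne
    have h5 := hmin (fun j => v' (Fin.rev j))
      (mem_image.mpr ⟨v', mem_filter.mpr ⟨mem_univ _, h3⟩, rfl⟩)
      (fun h => hne (by
        funext j
        have := congrFun h (Fin.rev j)
        simpa using this))
    rw [← wt_extW, ← wt_extW, h4] at h5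
    exact lt_irrefl _ h5
  · rintro rfl
    exact ⟨(mem_filter.mp hv).2, rfl⟩

theorem dim_bound {L k n : ℕ} (hL : L ≤ k) (hk : 1 ≤ k) (hn : 1 ≤ n) :
    (k * n ^ 2 + 1) * ((L * (2 * (L * n)) + 1) * ((L + 1) * n * (L * (2 * (L * n)) + 1) + 1 +
      L * (n * n * (L * (2 * (L * n)) + 1))) + 1) + 1 ≤ 63 * k ^ 6 * n ^ 6 := by
  have h0 : 1 ≤ k ^ 2 * n := Nat.one_le_iff_ne_zero.mpr (by positivity)
  have hU : L * (2 * (L * n)) + 1 ≤ 3 * (k ^ 2 * n) := by
    have : L * (2 * (L * n)) ≤ 2 * (k ^ 2 * n) := by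
      calc L * (2 * (L * n)) = 2 * (L * L * n) := by ring
        _ ≤ 2 * (k * k * n) := Nat.mul_le_mul_left _ (Nat.mul_le_mul_right _
            (Nat.mul_le_mul hL hL))
        _ = 2 * (k ^ 2 * n) := by ring
    omega
  have h1 : 1 ≤ k ^ 3 * n ^ 3 := Nat.one_le_iff_ne_zero.mpr (by positivity)
  have hD : (L + 1) * n * (L * (2 * (L * n)) + 1) + 1 + L * (n * n * (L * (2 * (L * n)) + 1)) ≤
      10 * (k ^ 3 * n ^ 3) := by
    have e1 : (L + 1) * n * (L * (2 * (L * n)) + 1) ≤ 6 * (k ^ 3 * n ^ 3) := by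
      calc (L + 1) * n * (L * (2 * (L * n)) + 1) ≤ (2 * k) * n * (3 * (k ^ 2 * n)) :=
            Nat.mul_le_mul (Nat.mul_le_mul_right _ (by omega)) hU
        _ = 6 * k ^ 3 * n ^ 2 * 1 := by ring
        _ ≤ 6 * k ^ 3 * n ^ 2 * n := Nat.mul_le_mul_left _ hn
        _ = 6 * (k ^ 3 * n ^ 3) := by ring
    have e2 : L * (n * n * (L * (2 * (L * n)) + 1)) ≤ 3 * (k ^ 3 * n ^ 3) := by
      calc L * (n * n * (L * (2 * (L * n)) + 1)) ≤ k * (n * n * (3 * (k ^ 2 * n))) :=
            Nat.mul_le_mul hL (Nat.mul_le_mul_left _ hU)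
        _ = 3 * (k ^ 3 * n ^ 3) := by ring
    omega
  have h2 : 1 ≤ k ^ 5 * n ^ 4 := Nat.one_le_iff_ne_zero.mpr (by positivity)
  have hE : (L * (2 * (L * n)) + 1) * ((L + 1) * n * (L * (2 * (L * n)) + 1) + 1 +
      L * (n * n * (L * (2 * (L * n)) + 1))) + 1 ≤ 31 * (k ^ 5 * n ^ 4) := by
    have e1 := Nat.mul_le_mul hU hD
    have e2 : 3 * (k ^ 2 * n) * (10 * (k ^ 3 * n ^ 3)) = 30 * (k ^ 5 * n ^ 4) := by ring
    omega
  have h3 : 1 ≤ k * n ^ 2 := Nat.one_le_iff_ne_zero.mpr (by positivity)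
  have hT : k * n ^ 2 + 1 ≤ 2 * (k * n ^ 2) := by omega
  have e3 := Nat.mul_le_mul hT hE
  have e4 : 2 * (k * n ^ 2) * (31 * (k ^ 5 * n ^ 4)) = 62 * (k ^ 6 * n ^ 6) := by ring
  have h4 : 1 ≤ k ^ 6 * n ^ 6 := Nat.one_le_iff_ne_zero.mpr (by positivity)
  have e5 : 63 * k ^ 6 * n ^ 6 = 62 * (k ^ 6 * n ^ 6) + k ^ 6 * n ^ 6 := by ring
  omega

/-- blocks without factors in `J` have span programs of polynomial dimension -/
theorem scomp_block (K : Type) [Field K] {J : Finset (Fin k)} (hk : 1 ≤ k) {u u' : ℕ}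
    (hu : u ≤ u') (hu' : u' ≤ k) (hseg : seg J u u' = ∅) (c d : Fin n) :
    SComp K (entriesOf n J) (fun x => Walk x u u' c d) (63 * k ^ 6 * n ^ 6) := by
  classical
  have hn : 1 ≤ n := by
    have := c.2
    omega
  have h0 : 1 ≤ 63 * k ^ 6 * n ^ 6 := Nat.one_le_iff_ne_zero.mpr (by positivity)
  by_cases huu : u = u'
  · subst huu
    by_cases hcd : c = d
    · refine (scomp_true.mono h0).congr fun x => ?_
      rw [walk_self]; simp [hcd]
    · refine (scomp_false.mono h0).congr fun x => ?_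
      rw [walk_self]; simp [hcd]
  · set L := u' - u with hL
    have hL1 : 1 ≤ L := by omega
    set U := L * (2 * (L * n)) with hU
    obtain ⟨ws, h1, h2⟩ := exists_weights (k := k) (u' := u') hn hL1 c d
    have hM : ∀ e : Fin k × Fin n × Fin n, u' - L ≤ (e.1 : ℕ) → (e.1 : ℕ) < u' →
        e ∉ entriesOf n J := by
      intro e h3 h4 h5
      have h6 : e.1 ∈ seg J u u' := by
        unfold seg
        rw [mem_filter]
        exact ⟨h5, by omega, h4⟩
      rw [hseg] at h6
      exact absurd h6 (notMem_empty _)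
    have h3 : ∀ w ∈ ws, SComp K (entriesOf n J) (fun x => ∃ s ∈ range (U + 1),
        ((cnt x u' d (extW w) L c s : ℕ) : K) ≠ 0)
        ((range (U + 1)).card * ((L + 1) * n * (U + 1) + 1 + L * (n * n * (U + 1))) + 1) :=
      fun w _ => scomp_exists _ fun s hs => scomp_cnt K (by omega) hu' hM (extW w) c d s
        (by rw [mem_range] at hs; omega)
    have h4 := scomp_exists ws h3
    refine (h4.mono ?_).congr fun x => ?_
    · rw [card_range]
      refine le_trans ?_ (dim_bound (L := L) (k := k) (n := n) (by omega) hk hn)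
      rw [← hU]
      exact Nat.add_le_add_right (Nat.mul_le_mul_right _ h1) _
    · have e1 : Walk x u u' c d ↔ ∃ v, IsW x u' d L c v := by
        rw [exists_isW x u' d L c (by omega)]
        rw [show u' - L = u by omega]
      rw [e1]
      constructor
      · rintro ⟨w, _, s, _, h5⟩
        have h6 : cnt x u' d (extW w) L c s ≠ 0 := fun h => h5 (by rw [h]; simp)
        unfold cnt at h6
        obtain ⟨v, hv⟩ := card_pos.mp (Nat.pos_of_ne_zero h6)
        exact ⟨v, (mem_filter.mp hv).2.1⟩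
      · intro h5
        obtain ⟨w, hw, s, hs, h6⟩ := h2 x h5
        refine ⟨w, hw, s, mem_range.mpr (by omega), ?_⟩
        rw [h6]
        simp

/-- entries of products by span programs that avoid the negations of the factors in `J` -/
theorem scomp_entry (K : Type) [Field K] {J : Finset (Fin k)} (hJ : J.Nonempty) (a b : Fin n) :
    SComp K (entriesOf n J) (fun x => Entry a b x)
      (134 * k ^ 6 * n ^ 8 * (2 * n) ^ Nat.clog 2 J.card) := by
  classical
  have hn : 1 ≤ n := by
    have := a.2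
    omega
  have hk : 1 ≤ k := by
    obtain ⟨i, _⟩ := hJ
    have := i.2
    omega
  have hC : Calc (fun (f : Set (Fin k × Fin n × Fin n) → Prop) m => SComp K (entriesOf n J) f m) :=
    { mono := fun h hm => h.mono hm
      congr := fun h hfg => h.congr hfg
      lit := fun e => (scomp_lit e).mono (by norm_num)
      and := fun h h' => h.and h'
      exist := fun {n' m f} hf => by
        have := scomp_exists (univ : Finset (Fin n')) (fun i _ => hf i)
        rw [card_univ, Fintype.card_fin] at this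
        refine (this.mono (by omega)).congr fun x => ?_
        simp }
  have := calc_entry hC hJ hn (fun u u' hu hk' hseg c d => scomp_block K hk hu hk' hseg c d) a b
  refine this.mono ?_
  refine Nat.mul_le_mul_right _ ?_
  have h1 : 1 ≤ k ^ 6 * n ^ 6 := Nat.one_le_iff_ne_zero.mpr (by positivity)
  calc 2 * n ^ 2 * (63 * k ^ 6 * n ^ 6 + 4) ≤ 2 * n ^ 2 * (67 * (k ^ 6 * n ^ 6)) :=
        Nat.mul_le_mul_left _ (by
          have : 63 * k ^ 6 * n ^ 6 = 63 * (k ^ 6 * n ^ 6) := by ring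
          omega)
    _ = 134 * k ^ 6 * n ^ 8 := by ring

end Pool.Agent.Lib.Pe46137P
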