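import Pool.Agent.Lib.Pe46137P.Lower
import Pool.Agent.Lib.Pe46137P.Form
import Pool.Agent.Lib.Pe46137P.Block
import Pool.Agent.Lib.Pe46137P.SBlock

/-!
The price of forbidding negations in `j` factors of a product of Boolean matrices.
-/

namespace Pool.Agent.Lib.Pe46137P

open Finset
open Pool.Agent.Lib.Pe46137

theorem lower_real {n j r m : ℕ} (hj : 1 ≤ j) (h : n ^ r ≤ j ^ r * m) :
    ((n : ℝ) / j) ^ r ≤ m := by
  have hj0 : (0 : ℝ) < (j : ℝ) ^ r := by positivity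
  rw [div_pow, div_le_iff₀ hj0]
  have : ((n ^ r : ℕ) : ℝ) ≤ ((j ^ r * m : ℕ) : ℝ) := by exact_mod_cast h
  push_cast at this
  linarith

theorem entriesOf_mono {n k : ℕ} {J J' : Finset (Fin k)} (h : J' ⊆ J) :
    entriesOf n J' ⊆ entriesOf n J := fun _ he => h he

/-- the main theorem -/
theorem factor_negations (n k : ℕ) (J : Finset (Fin k)) (hJ : J.Nonempty) (a b : Fin n) :
    -- span programs over a field `K`
    (∀ (K : Type) [Field K],
      (∀ (V : Type) [AddCommGroup V] [Module K V] [FiniteDimensional K V]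
        (S : SpanProgram (Fin k × Fin n × Fin n) V), S.Avoids (entriesOf n J) →
        (∀ x, S.Accepts K x ↔ Entry a b x) → ∀ j, 1 ≤ j → j ≤ J.card →
        ((n : ℝ) / j) ^ Nat.clog 2 j ≤ Module.finrank K V) ∧
      ∃ (V : Type) (_ : AddCommGroup V) (_ : Module K V)
        (S : SpanProgram (Fin k × Fin n × Fin n) V), FiniteDimensional K V ∧
        S.Avoids (entriesOf n J) ∧ (∀ x, S.Accepts K x ↔ Entry a b x) ∧
        Module.finrank K V ≤ 134 * k ^ 6 * n ^ 8 * (2 * n) ^ Nat.clog 2 J.card) ∧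
    -- switching networks
    (∀ (W : Type) [Fintype W] (N : SwitchingNetwork (Fin k × Fin n × Fin n) W),
      (∀ x, N.Connects x xᶜ ↔ Entry a b x) →
      (N.Avoids (entriesOf n J) → ∀ j, 1 ≤ j → j ≤ J.card →
        ((n : ℝ) / j) ^ Nat.clog 2 j ≤ Fintype.card W) ∧
      ∃ (W' : Type) (_ : Fintype W') (N' : SwitchingNetwork (Fin k × Fin n × Fin n) W'),
        N'.Avoids (entriesOf n J) ∧ (∀ x, N'.Connects x xᶜ ↔ Entry a b x) ∧
        Fintype.card W' ≤ 2 * n ^ 2 * (Fintype.card W + 6) * (2 * n) ^ Nat.clog 2 J.card) ∧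
    -- formulas
    (∀ φ : Formula (Fin k × Fin n × Fin n), φ.Avoids (entriesOf n J) →
      (∀ x, φ.Eval x ↔ Entry a b x) → ∀ j, 1 ≤ j → j ≤ J.card →
      ((n : ℝ) / j) ^ Nat.clog 2 j ≤ φ.leaves) ∧
    -- no negations at all
    (∃ φ : Formula (Fin k × Fin n × Fin n), φ.Avoids Set.univ ∧
      (∀ x, φ.Eval x ↔ Entry a b x) ∧ φ.leaves ≤ (2 * n) ^ Nat.clog 2 k) ∧
    (∃ (W : Type) (_ : Fintype W) (N : SwitchingNetwork (Fin k × Fin n × Fin n) W),
      N.Avoids Set.univ ∧ (∀ x, N.Connects x xᶜ ↔ Entry a b x) ∧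
      Fintype.card W ≤ 2 * (2 * n) ^ Nat.clog 2 k) ∧
    ∀ (K : Type) [Field K], ∃ (V : Type) (_ : AddCommGroup V) (_ : Module K V)
      (S : SpanProgram (Fin k × Fin n × Fin n) V), FiniteDimensional K V ∧
      S.Avoids Set.univ ∧ (∀ x, S.Accepts K x ↔ Entry a b x) ∧
      Module.finrank K V ≤ (2 * n) ^ Nat.clog 2 k := by
  have hk : 1 ≤ k := by
    obtain ⟨i, _⟩ := hJ
    have := i.2
    omega
  have low : ∀ (K : Type) [Field K] (V : Type) [AddCommGroup V] [Module K V]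
      [FiniteDimensional K V] (S : SpanProgram (Fin k × Fin n × Fin n) V),
      S.Avoids (entriesOf n J) → (∀ x, S.Accepts K x ↔ Entry a b x) → ∀ j, 1 ≤ j →
      j ≤ J.card → ((n : ℝ) / j) ^ Nat.clog 2 j ≤ Module.finrank K V := by
    intro K _ V _ _ _ S hS hc j hj hjJ
    obtain ⟨J', hJ', hcard⟩ := exists_subset_card_eq hjJ
    have h1 : J'.Nonempty := card_pos.mp (by omega)
    have h2 := lower_span h1 a b K V S (fun e he => hS e (entriesOf_mono hJ' he)) hc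
    rw [hcard] at h2
    exact lower_real hj h2
  have lowS : ∀ (f : Set (Fin k × Fin n × Fin n) → Prop) (m : ℕ),
      SComp ℚ (entriesOf n J) f m → (∀ x, f x ↔ Entry a b x) → ∀ j, 1 ≤ j →
      j ≤ J.card → ((n : ℝ) / j) ^ Nat.clog 2 j ≤ m := by
    rintro f m ⟨V, i1, i2, S, i3, h2, h3, h4⟩ hf j hj hjJ
    refine (low ℚ V S h3 (fun x => (h4 x).trans (hf x)) j hj hjJ).trans ?_
    exact_mod_cast h2
  refine ⟨fun K _ => ⟨fun V _ _ _ S hS hc => low K V S hS hc, ?_⟩, fun W _ N hN => ⟨?_, ?_⟩,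
    ?_, ?_, ?_, fun K _ => ?_⟩
  · obtain ⟨V, i1, i2, S, h1, h2, h3, h4⟩ := scomp_entry K hJ a b
    exact ⟨V, i1, i2, S, h1, h3, h4, h2⟩
  · intro hA
    exact lowS _ _ (scomp_of_network ℚ N hA) hN
  · obtain ⟨W', i, N', h1, h2, h3⟩ := comp_entry hJ a b N hN
    exact ⟨W', i, N', h2, fun x => h3 x (Set.mem_univ _), h1⟩
  · intro φ hφ hc
    exact lowS _ _ (scomp_of_formula ℚ φ hφ) hc
  · obtain ⟨φ, h1, h2, h3⟩ := formula_entry hk a b
    exact ⟨φ, h1, h3, h2⟩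
  · obtain ⟨φ, h1, h2, h3⟩ := formula_entry hk a b
    obtain ⟨W, i, N, g1, g2, g3⟩ := comp_of_formula (M := Set.univ) φ h1
    exact ⟨W, i, N, g2, fun x => (g3 x (Set.mem_univ _)).trans (h3 x),
      g1.trans (Nat.mul_le_mul_left _ h2)⟩
  · obtain ⟨φ, h1, h2, h3⟩ := formula_entry hk a b
    obtain ⟨V, i1, i2, S, g1, g2, g3, g4⟩ := scomp_of_formula (M := Set.univ) K φ h1
    exact ⟨V, i1, i2, S, g1, g3, fun x => (g4 x).trans (h3 x), g2.trans h2⟩

end Pool.Agent.Lib.Pe46137P
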