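import Mathlib

/-!
The isolation lemma for sequences, and a small family of weights isolating all members of a
finite family.
-/

namespace Pool.Agent.Lib.Pe46137P

open Finset

variable {L n N : ℕ}

/-- the weight of a sequence -/
def wgt (w : Fin L → Fin n → Fin N) (v : Fin L → Fin n) : ℕ := ∑ j, (w j (v j) : ℕ)

/-- `w` has exactly one sequence of least weight in `𝒱` -/
def Isolates (w : Fin L → Fin n → Fin N) (𝒱 : Finset (Fin L → Fin n)) : Prop :=
  ∃ v ∈ 𝒱, ∀ v' ∈ 𝒱, v' ≠ v → wgt w v < wgt w v'

theorem wgt_update_ne [DecidableEq (Fin L)] (w : Fin L → Fin n → Fin N) (t : Fin L) (p : Fin n)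
    (i : Fin N) {v : Fin L → Fin n} (hv : v t ≠ p) :
    wgt (Function.update w t (Function.update (w t) p i)) v = wgt w v := by
  unfold wgt
  refine sum_congr rfl fun j _ => ?_
  by_cases h : j = t
  · subst h
    rw [Function.update_self, Function.update_of_ne hv]
  · rw [Function.update_of_ne h]

theorem wgt_update_eq [DecidableEq (Fin L)] (w : Fin L → Fin n → Fin N) (t : Fin L) (p : Fin n)
    (i : Fin N) {v : Fin L → Fin n} (hv : v t = p) :
    wgt (Function.update w t (Function.update (w t) p i)) v + w t p = wgt w v + i := by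
  unfold wgt
  rw [← add_sum_erase univ _ (mem_univ t), ← add_sum_erase univ (fun j => ((w j (v j) : Fin N) : ℕ))
    (mem_univ t)]
  have h1 : ∑ j ∈ univ.erase t, ((Function.update w t (Function.update (w t) p i) j (v j) : Fin N)
      : ℕ) = ∑ j ∈ univ.erase t, ((w j (v j) : Fin N) : ℕ) := by
    refine sum_congr rfl fun j hj => ?_
    rw [Function.update_of_ne (ne_of_mem_erase hj)]
  rw [h1, Function.update_self]
  simp only [hv, Function.update_self]
  ring

/-- weights for which two sequences of least weight are separated by the vertex `(t, p)` -/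
def BadAt (𝒱 : Finset (Fin L → Fin n)) (t : Fin L) (p : Fin n) (w : Fin L → Fin n → Fin N) :
    Prop :=
  ∃ v ∈ 𝒱, ∃ v' ∈ 𝒱, v t = p ∧ v' t ≠ p ∧ (∀ z ∈ 𝒱, wgt w v ≤ wgt w z) ∧ wgt w v' = wgt w v

theorem badAt_unique {𝒱 : Finset (Fin L → Fin n)} {t : Fin L} {p : Fin n}
    {w : Fin L → Fin n → Fin N} {i : Fin N} (h : BadAt 𝒱 t p w)
    (h' : BadAt 𝒱 t p (Function.update w t (Function.update (w t) p i))) : w t p = i := by
  classical
  set w' := Function.update w t (Function.update (w t) p i) with hw'
  obtain ⟨v, hv, u, hu, hvt, hut, hmin, heq⟩ := h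
  obtain ⟨v', hv', u', hu', hvt', hut', hmin', heq'⟩ := h'
  -- the two minima over the sequences avoiding `(t, p)` agree
  have e1 : wgt w u ≤ wgt w u' := by rw [heq]; exact hmin u' hu'
  have e2 : wgt w' u' ≤ wgt w' u := by rw [heq']; exact hmin' u hu
  rw [wgt_update_ne w t p i hut, wgt_update_ne w t p i hut'] at e2
  have e3 : wgt w u' = wgt w u := le_antisymm e2 e1
  have e4 : wgt w' v' ≤ wgt w' v := hmin' v hv
  have e5 : wgt w v ≤ wgt w v' := hmin v' hv'
  have e6 := wgt_update_eq w t p i hvt
  have e7 := wgt_update_eq w t p i hvt'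
  rw [← hw'] at e6 e7
  have e8 : wgt w' v' = wgt w v := by
    have := wgt_update_ne w t p i hut'
    rw [← hw'] at this
    rw [← heq', this, e3, heq]
  apply Fin.ext
  omega

open Classical in
/-- THE ISOLATION LEMMA -/
theorem isolation (𝒱 : Finset (Fin L → Fin n)) (h𝒱 : 𝒱.Nonempty) :
    (univ.filter (fun w : Fin L → Fin n → Fin N => ¬ Isolates w 𝒱)).card * N ≤
      L * n * Fintype.card (Fin L → Fin n → Fin N) := by
  classical
  have h1 : univ.filter (fun w : Fin L → Fin n → Fin N => ¬ Isolates w 𝒱) ⊆
      (univ : Finset (Fin L × Fin n)).biUnion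
        (fun a => univ.filter (fun w => BadAt 𝒱 a.1 a.2 w)) := by
    intro w hw
    rw [mem_filter] at hw
    obtain ⟨v, hv, hmin⟩ := exists_min_image 𝒱 (wgt w) h𝒱
    have h2 : ∃ v' ∈ 𝒱, v' ≠ v ∧ wgt w v' = wgt w v := by
      by_contra hc
      push Not at hc
      refine hw.2 ⟨v, hv, fun v' hv' hne => ?_⟩
      exact lt_of_le_of_ne (hmin v' hv') (Ne.symm (hc v' hv' hne))
    obtain ⟨v', hv', hne, heq⟩ := h2
    obtain ⟨t, ht⟩ := Function.ne_iff.mp hne
    rw [mem_biUnion]
    exact ⟨(t, v t), mem_univ _, mem_filter.mpr ⟨mem_univ _, v, hv, v', hv', rfl, ht, hmin, heq⟩⟩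
  have h3 : ∀ a : Fin L × Fin n, (univ.filter (fun w : Fin L → Fin n → Fin N =>
      BadAt 𝒱 a.1 a.2 w)).card * N ≤ Fintype.card (Fin L → Fin n → Fin N) := by
    intro a
    have : (univ.filter (fun w : Fin L → Fin n → Fin N => BadAt 𝒱 a.1 a.2 w)).card * N =
        ((univ.filter (fun w : Fin L → Fin n → Fin N => BadAt 𝒱 a.1 a.2 w)) ×ˢ
          (univ : Finset (Fin N))).card := by
      rw [card_product, card_univ, Fintype.card_fin]
    rw [this, ← card_univ]
    refine card_le_card_of_injOn
      (fun z => Function.update z.1 a.1 (Function.update (z.1 a.1) a.2 z.2))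
      (fun _ _ => mem_univ _) ?_
    rintro ⟨w, i⟩ hw ⟨w', i'⟩ hw' heq
    simp only [coe_product, coe_filter, mem_univ, true_and, coe_univ, Set.mem_prod,
      Set.mem_ofPred_eq, Set.mem_univ, and_true] at hw hw' heq
    have e1 : i = i' := by
      have := congrFun (congrFun heq a.1) a.2
      simpa using this
    subst e1
    have e2 : w' = Function.update w a.1 (Function.update (w a.1) a.2 (w' a.1 a.2)) := by
      funext j q
      by_cases hj : j = a.1
      · subst hj
        rw [Function.update_self]
        by_cases hq : q = a.2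
        · subst hq
          rw [Function.update_self]
        · rw [Function.update_of_ne hq]
          have := congrFun (congrFun heq a.1) q
          rw [Function.update_self, Function.update_self, Function.update_of_ne hq,
            Function.update_of_ne hq] at this
          exact this.symm
      · rw [Function.update_of_ne hj]
        have := congrFun (congrFun heq j) q
        rw [Function.update_of_ne hj, Function.update_of_ne hj] at this
        exact this.symm
    have e3 : w a.1 a.2 = w' a.1 a.2 := by
      refine badAt_unique (𝒱 := 𝒱) hw ?_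
      rw [← e2]
      exact hw'
    have e4 : w' = w := by
      rw [e2, ← e3, Function.update_eq_self, Function.update_eq_self]
    rw [e4]
  calc (univ.filter (fun w : Fin L → Fin n → Fin N => ¬ Isolates w 𝒱)).card * N
      ≤ (∑ a : Fin L × Fin n, (univ.filter (fun w => BadAt 𝒱 a.1 a.2 w)).card) * N :=
        Nat.mul_le_mul_right _ ((card_le_card h1).trans card_biUnion_le)
    _ = ∑ a : Fin L × Fin n, (univ.filter (fun w => BadAt 𝒱 a.1 a.2 w)).card * N := by
        rw [sum_mul]
    _ ≤ ∑ a : Fin L × Fin n, Fintype.card (Fin L → Fin n → Fin N) := sum_le_sum fun a _ => h3 a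
    _ = L * n * Fintype.card (Fin L → Fin n → Fin N) := by
        rw [sum_const, card_univ, smul_eq_mul, Fintype.card_prod, Fintype.card_fin,
          Fintype.card_fin]

/-- greedy choice: if every item is good for at least half of the points, few points suffice for
all items -/
theorem greedy {X Ω : Type} [Fintype Ω] [Nonempty Ω] (good : X → Ω → Prop)
    [∀ x w, Decidable (good x w)] : ∀ (T : ℕ) (X0 : Finset X),
      (∀ x ∈ X0, 2 * (univ.filter (fun w => ¬ good x w)).card ≤ Fintype.card Ω) →
      X0.card < 2 ^ T → ∃ ws : Finset Ω, ws.card ≤ T ∧ ∀ x ∈ X0, ∃ w ∈ ws, good x w := by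
  classical
  intro T
  induction T with
  | zero =>
    intro X0 _ hc
    have : X0 = ∅ := by
      rw [← card_eq_zero]
      simpa using hc
    subst this
    exact ⟨∅, by simp, by simp⟩
  | succ T ih =>
    intro X0 hX hc
    rcases X0.eq_empty_or_nonempty with h0 | h0
    · subst h0
      exact ⟨∅, by simp, by simp⟩
    obtain ⟨x0, hx0⟩ := h0
    -- some point is good for at least half of the items
    have hw : ∃ w : Ω, 2 * (X0.filter (fun x => ¬ good x w)).card ≤ X0.card := by
      by_contra hcon
      push Not at hcon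
      have h1 : ∑ w : Ω, X0.card < ∑ w : Ω, 2 * (X0.filter (fun x => ¬ good x w)).card :=
        sum_lt_sum_of_nonempty univ_nonempty fun w _ => hcon w
      have h2 : ∑ w : Ω, 2 * (X0.filter (fun x => ¬ good x w)).card =
          ∑ x ∈ X0, 2 * (univ.filter (fun w => ¬ good x w)).card := by
        rw [← mul_sum, ← mul_sum]
        congr 1
        simp_rw [card_filter]
        rw [sum_comm]
      have h3 : ∑ x ∈ X0, 2 * (univ.filter (fun w => ¬ good x w)).card ≤
          ∑ x ∈ X0, Fintype.card Ω := sum_le_sum hX
      rw [h2] at h1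
      simp only [sum_const, card_univ, smul_eq_mul] at h1 h3
      have : Fintype.card Ω * X0.card = X0.card * Fintype.card Ω := mul_comm _ _
      omega
    obtain ⟨w, hw⟩ := hw
    obtain ⟨ws, h1, h2⟩ := ih (X0.filter (fun x => ¬ good x w))
      (fun x hx => hX x (mem_filter.mp hx).1) (by rw [pow_succ] at hc; omega)
    refine ⟨insert w ws, (card_insert_le _ _).trans (by omega), fun x hx => ?_⟩
    by_cases hg : good x w
    · exact ⟨w, mem_insert_self _ _, hg⟩
    · obtain ⟨w', hw', hg'⟩ := h2 x (mem_filter.mpr ⟨hx, hg⟩)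
      exact ⟨w', mem_insert_of_mem hw', hg'⟩

end Pool.Agent.Lib.Pe46137P
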