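import Pool.Agent.Lib.Pe46137P.Defs
import Pool.Agent.Lib.Pe46137P.Core
import Pool.Agent.Lib.Pe46137P.Count

/-!
The lower bound for products of Boolean matrices.
-/

namespace Pool.Agent.Lib.Pe46137P

open Finset

section

variable {n k : ℕ} (J : Finset (Fin k))

/-- the number of factors in `J` before layer `t` -/
def lam (t : ℕ) : ℕ := (J.filter (fun i : Fin k => (i : ℕ) < t)).card

theorem lam_zero : lam J 0 = 0 := by simp [lam]

theorem lam_last : lam J k = J.card := by
  unfold lam
  rw [filter_true_of_mem]
  intro i _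
  exact i.2

theorem lam_succ_mem {i : Fin k} (hi : i ∈ J) : lam J (i + 1) = lam J i + 1 := by
  unfold lam
  have : J.filter (fun j : Fin k => (j : ℕ) < i + 1) =
      insert i (J.filter (fun j : Fin k => (j : ℕ) < i)) := by
    ext j
    simp only [mem_filter, mem_insert]
    constructor
    · rintro ⟨h1, h2⟩
      by_cases h : (j : ℕ) = i
      · exact Or.inl (Fin.ext h)
      · exact Or.inr ⟨h1, by omega⟩
    · rintro (h | ⟨h1, h2⟩)
      · subst h; exact ⟨hi, by omega⟩
      · exact ⟨h1, by omega⟩
  rw [this, card_insert_of_notMem (by simp)]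

theorem lam_succ_notMem {i : Fin k} (hi : i ∉ J) : lam J (i + 1) = lam J i := by
  unfold lam
  congr 1
  ext j
  simp only [mem_filter]
  constructor
  · rintro ⟨h1, h2⟩
    refine ⟨h1, ?_⟩
    have : (j : ℕ) ≠ i := fun h => hi (Fin.ext h ▸ h1)
    omega
  · rintro ⟨h1, h2⟩
    exact ⟨h1, by omega⟩

theorem lam_le (t : ℕ) : lam J t ≤ J.card := card_le_card (filter_subset _ _)

theorem lam_lt {i : Fin k} (hi : i ∈ J) : lam J i < J.card := by
  have := lam_succ_mem J hi
  have h2 := lam_le J (i + 1)
  omega

variable (a b : Fin n) {l : ℕ}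

/-- the vertex of the path `f` at level `r` -/
def vert (f : Fin l → Fin n) (r : ℕ) : Fin n :=
  if r = 0 then a else if h : r - 1 < l then f ⟨r - 1, h⟩ else b

/-- the input of the path `f`: single arcs in the factors of `J`, identity matrices elsewhere -/
def pathInput (f : Fin l → Fin n) : Set (Fin k × Fin n × Fin n) :=
  {e | (e.1 ∈ J ∧ e.2.1 = vert a b f (lam J e.1) ∧ e.2.2 = vert a b f (lam J e.1 + 1)) ∨
    (e.1 ∉ J ∧ e.2.1 = e.2.2)}

/-- the source side of a cut at level `r` -/
def Side (y : Finset (Fin l × Fin n)) (r : ℕ) (c : Fin n) : Prop :=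
  r = 0 ∨ ∃ h : r - 1 < l, (⟨r - 1, h⟩, c) ∈ y

/-- the input of a cut: everything that does not leave the source side in the factors of `J`,
identity matrices elsewhere -/
def cutInput (y : Finset (Fin l × Fin n)) : Set (Fin k × Fin n × Fin n) :=
  {e | (e.1 ∈ J ∧ ¬ (Side y (lam J e.1) e.2.1 ∧ ¬ Side y (lam J e.1 + 1) e.2.2)) ∨
    (e.1 ∉ J ∧ e.2.1 = e.2.2)}

theorem entry_path (hJ : J.card = l + 1) (f : Fin l → Fin n) :
    Entry a b (pathInput J a b f) := by
  refine ⟨fun t => vert a b f (lam J t), ?_, ?_, fun i => ?_⟩
  · simp [vert, lam_zero]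
  · simp only [Fin.val_last, lam_last, hJ]
    unfold vert
    simp
  · by_cases hi : i ∈ J
    · left
      refine ⟨hi, rfl, ?_⟩
      simp only [Fin.val_succ, lam_succ_mem J hi]
    · right
      refine ⟨hi, ?_⟩
      simp only [Fin.val_castSucc, Fin.val_succ, lam_succ_notMem J hi]

theorem not_entry_cut (hJ : J.card = l + 1) (y : Finset (Fin l × Fin n)) :
    ¬ Entry a b (cutInput J y) := by
  rintro ⟨v, hv0, _, hv⟩
  have key : ∀ t : ℕ, ∀ ht : t < k + 1, Side y (lam J t) (v ⟨t, ht⟩) := by
    intro t
    induction t with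
    | zero => intro _; left; exact lam_zero J
    | succ t ih =>
      intro ht
      have h1 := ih (by omega)
      have h2 := hv ⟨t, by omega⟩
      simp only [Fin.castSucc_mk, Fin.succ_mk] at h2
      rcases h2 with ⟨hJ', h2⟩ | ⟨hJ', h2⟩
      · by_contra hc
        refine h2 ⟨h1, ?_⟩
        have := lam_succ_mem J hJ'
        simp only at this
        rw [this] at hc
        exact hc
      · have := lam_succ_notMem J hJ'
        simp only at this
        rw [this]
        simp only at h2
        rw [← h2]
        exact h1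
  have h := key k (by omega)
  rw [lam_last, hJ] at h
  rcases h with h | ⟨h, _⟩
  · omega
  · omega

/-- the vertices of the path -/
def pathEmb (f : Fin l → Fin n) : Fin l ↪ Fin l × Fin n :=
  ⟨fun i => (i, f i), fun i j h => congrArg Prod.fst h⟩

theorem crosses_iff (f : Fin l → Fin n) (y : Finset (Fin l × Fin n)) {r : ℕ} (hr : r ≤ l) :
    Crosses r (pull (pathEmb f) y) ↔
      Side y r (vert a b f r) ∧ ¬ Side y (r + 1) (vert a b f (r + 1)) := by
  unfold Crosses Side vert
  constructor
  · rintro ⟨h1, h2⟩
    refine ⟨?_, ?_⟩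
    · by_cases h0 : r = 0
      · exact Or.inl h0
      · right
        have hlt : r - 1 < l := by omega
        refine ⟨hlt, ?_⟩
        rw [if_neg h0, dif_pos hlt]
        have := h1 ⟨r - 1, hlt⟩ (by simp; omega)
        rw [mem_pull] at this
        exact this
    · rintro (h | ⟨h, h'⟩)
      · omega
      · have hlt : r < l := by omega
        have h3 := h2 ⟨r, hlt⟩ rfl
        rw [mem_pull] at h3
        apply h3
        simp only [Nat.add_sub_cancel, Nat.succ_ne_zero, if_false, hlt, dif_pos] at h'
        exact h'
  · rintro ⟨h1, h2⟩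
    refine ⟨?_, ?_⟩
    · intro j hj
      rw [mem_pull]
      rcases h1 with h1 | ⟨h, h1⟩
      · omega
      · rw [if_neg (by omega), dif_pos h] at h1
        have : j = ⟨r - 1, h⟩ := Fin.ext (by simp; omega)
        rw [this]
        exact h1
    · intro j hj hm
      rw [mem_pull] at hm
      apply h2
      right
      have hlt : r < l := by omega
      refine ⟨by simpa using hlt, ?_⟩
      have : j = ⟨r, hlt⟩ := Fin.ext hj
      rw [this] at hm
      simp only [Nat.add_sub_cancel, Nat.succ_ne_zero, if_false, hlt, dif_pos]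
      exact hm

end

/-- sets that choose at most one vertex in each of few layers -/
def chosen (l n d : ℕ) : Finset (Finset (Fin l × Fin n)) :=
  (univ.filter (fun U : Finset (Fin l) => U.card + d + 1 ≤ l)).biUnion fun U =>
    (univ : Finset (U → Fin n)).image fun g => U.attach.image fun i => (i.1, g i)

theorem mem_chosen {l n d : ℕ} (f : Fin l → Fin n) {U : Finset (Fin l)}
    (hU : U.card + d + 1 ≤ l) : U.map (pathEmb f) ∈ chosen l n d := by
  unfold chosen
  rw [mem_biUnion]
  refine ⟨U, mem_filter.mpr ⟨mem_univ _, hU⟩, ?_⟩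
  rw [mem_image]
  refine ⟨fun i => f i.1, mem_univ _, ?_⟩
  ext q
  simp only [mem_image, mem_attach, true_and, Subtype.exists, mem_map, pathEmb, exists_prop]
  exact Iff.rfl

theorem card_chosen_le (l n d : ℕ) :
    (chosen l n d).card ≤ ∑ j ∈ range (l - d), l.choose j * n ^ j := by
  classical
  unfold chosen
  refine (card_biUnion_le).trans ?_
  have h1 : ∀ U ∈ univ.filter (fun U : Finset (Fin l) => U.card + d + 1 ≤ l),
      ((univ : Finset (U → Fin n)).image fun g => U.attach.image fun i => (i.1, g i)).card ≤
        n ^ U.card := by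
    intro U _
    refine card_image_le.trans ?_
    simp
  refine (sum_le_sum h1).trans ?_
  rw [← sum_fiberwise_of_maps_to (s := univ.filter (fun U : Finset (Fin l) => U.card + d + 1 ≤ l))
    (t := range (l - d)) (g := fun U => U.card) (by
      intro U hU
      simp only [mem_filter, mem_univ, true_and] at hU
      rw [mem_range]; omega)]
  refine sum_le_sum fun j _ => ?_
  rw [sum_congr rfl (g := fun _ => n ^ j) (by
    intro U hU
    simp only [mem_filter] at hU
    rw [hU.2])]
  rw [sum_const, smul_eq_mul]
  refine Nat.mul_le_mul_right _ ?_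
  have h2 : (univ.filter (fun U : Finset (Fin l) => U.card + d + 1 ≤ l)).filter
      (fun U => U.card = j) ⊆ powersetCard j univ := by
    intro U hU
    simp only [mem_filter, mem_univ, true_and, mem_powersetCard, subset_univ] at hU ⊢
    exact hU.2
  refine (card_le_card h2).trans ?_
  rw [card_powersetCard, card_univ, Fintype.card_fin]

/-- the lower bound for span programs -/
theorem lower_span {n k : ℕ} {J : Finset (Fin k)} (hJ : J.Nonempty) (a b : Fin n) (K : Type)
    [Field K] (V : Type) [AddCommGroup V] [Module K V] [FiniteDimensional K V]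
    (S : SpanProgram (Fin k × Fin n × Fin n) V) (hS : S.Avoids (entriesOf n J))
    (hc : ∀ x, S.Accepts K x ↔ Entry a b x) :
    n ^ Nat.clog 2 J.card ≤ J.card ^ Nat.clog 2 J.card * Module.finrank K V := by
  classical
  obtain ⟨l, hl⟩ : ∃ l, J.card = l + 1 := ⟨J.card - 1, by
    have := card_pos.mpr hJ
    omega⟩
  -- functionals of the cuts
  have hφ : ∀ y : Finset (Fin l × Fin n), ∃ φ : V →ₗ[K] K, φ S.target = 1 ∧
      ∀ v ∈ S.available (cutInput J y), φ v = 0 := by
    intro y
    have h1 : S.target ∉ Submodule.span K (S.available (cutInput J y)) := fun h =>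
      not_entry_cut J a b hl y ((hc _).mp h)
    obtain ⟨φ, h2, h3⟩ := Submodule.exists_le_ker_of_notMem h1
    refine ⟨(φ S.target)⁻¹ • φ, ?_, ?_⟩
    · simp [h2]
    · intro v hv
      have := h3 (Submodule.subset_span hv)
      rw [LinearMap.mem_ker] at this
      simp [this]
  choose φ hφ1 hφ2 using hφ
  by_cases hl0 : l = 0
  · -- one factor
    rw [hl, hl0]
    have h1 : 0 < Module.finrank K V := by
      rw [Module.finrank_pos_iff_exists_ne_zero]
      refine ⟨S.target, fun h => ?_⟩
      have := hφ1 ∅
      rw [h, map_zero] at this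
      exact zero_ne_one this
    simp
    omega
  · have hl1 : 1 ≤ l := by omega
    set d := Nat.log 2 l with hd
    have hdl : 2 ^ d ≤ l := Nat.pow_log_le_self 2 hl0
    have key := core_one (K := K) (F := Fin l → Fin n) (d := d) hdl (fun f => pathEmb f)
      (by
        intro f g hfg
        obtain ⟨j, hj⟩ := Function.ne_iff.mp hfg
        refine ⟨j, fun i h => ?_⟩
        have h1 : i = j := congrArg Prod.fst h
        subst h1
        exact hj (congrArg Prod.snd h).symm)
      (chosen l n d) (fun f U hU => mem_chosen f hU) φ S.target hφ1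
      (fun f => by
        have h1 : S.target ∈ Submodule.span K (S.available (pathInput J a b f)) :=
          (hc _).mpr (entry_path J a b hl f)
        refine Submodule.span_mono ?_ h1
        intro v hv
        -- each available vector is killed by the cuts that do not cross one arc
        rcases hv with hv | hv | hv
        · refine ⟨0, by omega, fun y _ => hφ2 y v (Or.inl hv)⟩
        · simp only [Set.mem_iUnion] at hv
          obtain ⟨e, he, hv⟩ := hv
          rcases he with ⟨heJ, he1, he2⟩ | ⟨heJ, he1⟩
          · refine ⟨lam J e.1, by have := lam_lt J heJ; omega, fun y hy => ?_⟩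
            refine hφ2 y v (Or.inr (Or.inl ?_))
            simp only [Set.mem_iUnion]
            refine ⟨e, Or.inl ⟨heJ, ?_⟩, hv⟩
            rw [he1, he2]
            rwa [crosses_iff a b f y (by have := lam_lt J heJ; omega)] at hy
          · refine ⟨0, by omega, fun y _ => hφ2 y v (Or.inr (Or.inl ?_))⟩
            simp only [Set.mem_iUnion]
            exact ⟨e, Or.inr ⟨heJ, he1⟩, hv⟩
        · simp only [Set.mem_iUnion] at hv
          obtain ⟨e, he, hv⟩ := hv
          by_cases heJ : e.1 ∈ J
          · rw [hS e heJ] at hv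
            exact absurd hv (Set.notMem_empty _)
          · refine ⟨0, by omega, fun y _ => hφ2 y v (Or.inr (Or.inr ?_))⟩
            simp only [Set.mem_iUnion]
            refine ⟨e, ?_, hv⟩
            rintro (⟨h, _⟩ | ⟨_, h⟩)
            · exact heJ h
            · exact he (Or.inr ⟨heJ, h⟩))
    have h2 : n ^ l ≤ (∑ j ∈ range (l - Nat.log 2 l), l.choose j * n ^ j) *
        Module.finrank K V := by
      have : Fintype.card (Fin l → Fin n) = n ^ l := by simp
      rw [← this]
      exact key.trans (Nat.mul_le_mul_right _ (card_chosen_le l n d))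
    have h3 := final_count hl1 h2
    rw [hl, clog_succ hl1]
    exact h3

end Pool.Agent.Lib.Pe46137P
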