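import Pool.Agent.Lib.Pe46137P.Defs

/-!
Walks through consecutive layers, and the recursion over the factors in `J`.
-/

namespace Pool.Agent.Lib.Pe46137P

open Finset

variable {n k : ℕ}

/-- there is a walk from vertex `c` of layer `u` to vertex `d` of layer `u'` -/
def Walk (x : Set (Fin k × Fin n × Fin n)) (u u' : ℕ) (c d : Fin n) : Prop :=
  ∃ v : ℕ → Fin n, v u = c ∧ v u' = d ∧
    ∀ t, u ≤ t → t < u' → ∃ h : t < k, (⟨t, h⟩, v t, v (t + 1)) ∈ x

theorem walk_self {x : Set (Fin k × Fin n × Fin n)} {u : ℕ} {c d : Fin n} :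
    Walk x u u c d ↔ c = d := by
  constructor
  · rintro ⟨v, h1, h2, _⟩
    rw [← h1, ← h2]
  · rintro rfl
    exact ⟨fun _ => c, rfl, rfl, fun t h1 h2 => by omega⟩

theorem walk_split {x : Set (Fin k × Fin n × Fin n)} {u m u' : ℕ} (h1 : u ≤ m) (h2 : m ≤ u')
    {c d : Fin n} : Walk x u u' c d ↔ ∃ e, Walk x u m c e ∧ Walk x m u' e d := by
  constructor
  · rintro ⟨v, hu, hu', hv⟩
    exact ⟨v m, ⟨v, hu, rfl, fun t h3 h4 => hv t h3 (by omega)⟩,
      ⟨v, rfl, hu', fun t h3 h4 => hv t (by omega) h4⟩⟩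
  · rintro ⟨e, ⟨v, hv1, hv2, hv⟩, ⟨w, hw1, hw2, hw⟩⟩
    refine ⟨fun t => if t ≤ m then v t else w t, ?_, ?_, ?_⟩
    · simp [h1, hv1]
    · by_cases h : u' ≤ m
      · have : u' = m := by omega
        subst this
        simp only [le_refl, if_true]
        rw [hv2, ← hw1, hw2]
      · simp [h, hw2]
    · intro t h3 h4
      by_cases h : t < m
      · obtain ⟨hk, h5⟩ := hv t h3 h
        refine ⟨hk, ?_⟩
        simp only [show t ≤ m by omega, show t + 1 ≤ m by omega, if_true]
        exact h5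
      · obtain ⟨hk, h5⟩ := hw t (by omega) h4
        refine ⟨hk, ?_⟩
        simp only [show ¬ t + 1 ≤ m by omega, if_false]
        by_cases h6 : t ≤ m
        · have : t = m := by omega
          subst this
          simp only [le_refl, if_true]
          rw [hv2, ← hw1]
          exact h5
        · simp only [h6, if_false]
          exact h5

theorem walk_one {x : Set (Fin k × Fin n × Fin n)} {u : ℕ} (hu : u < k) {c d : Fin n} :
    Walk x u (u + 1) c d ↔ (⟨u, hu⟩, c, d) ∈ x := by
  constructor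
  · rintro ⟨v, h1, h2, h3⟩
    obtain ⟨_, h4⟩ := h3 u le_rfl (by omega)
    rw [h1, h2] at h4
    exact h4
  · intro h
    refine ⟨fun t => if t ≤ u then c else d, by simp, by simp, fun t h1 h2 => ?_⟩
    have : t = u := by omega
    subst this
    exact ⟨hu, by simpa using h⟩

theorem walk_all {x : Set (Fin k × Fin n × Fin n)} {a b : Fin n} :
    Walk x 0 k a b ↔ Entry a b x := by
  constructor
  · rintro ⟨v, h1, h2, h3⟩
    refine ⟨fun t => v t, by simpa using h1, by simpa using h2, fun i => ?_⟩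
    obtain ⟨_, h4⟩ := h3 i (Nat.zero_le _) i.2
    simpa using h4
  · rintro ⟨v, h1, h2, h3⟩
    refine ⟨fun t => if h : t < k + 1 then v ⟨t, h⟩ else a, ?_, ?_, fun t _ ht => ⟨ht, ?_⟩⟩
    · simpa using h1
    · simp only [Nat.lt_succ_self, dif_pos]
      exact h2
    · have := h3 ⟨t, ht⟩
      simp only [Fin.castSucc_mk, Fin.succ_mk] at this
      simp only [show t < k + 1 by omega, show t + 1 < k + 1 by omega, dif_pos]
      exact this

/-- a complexity measure with the usual bounds for literals, conjunctions and disjunctions -/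
structure Calc {E : Type} (C : (Set E → Prop) → ℕ → Prop) : Prop where
  mono : ∀ {f m m'}, C f m → m ≤ m' → C f m'
  congr : ∀ {f g m}, C f m → (∀ x, f x ↔ g x) → C g m
  lit : ∀ e : E, C (fun x => e ∈ x) 2
  and : ∀ {f g m m'}, C f m → C g m' → C (fun x => f x ∧ g x) (m + m')
  exist : ∀ {n m : ℕ} {f : Fin n → Set E → Prop}, (∀ i, C (f i) m) →
    C (fun x => ∃ i, f i x) (n * m + 2)

/-- the factors of `J` in an interval of layers -/
def seg (J : Finset (Fin k)) (u u' : ℕ) : Finset (Fin k) :=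
  J.filter (fun i : Fin k => u ≤ (i : ℕ) ∧ (i : ℕ) < u')

theorem card_seg_succ (J : Finset (Fin k)) (u u' : ℕ) :
    (seg J u (u' + 1)).card ≤ (seg J u u').card + 1 := by
  unfold seg
  by_cases h : u' < k
  · have : J.filter (fun i : Fin k => u ≤ (i : ℕ) ∧ (i : ℕ) < u' + 1) ⊆
        insert ⟨u', h⟩ (J.filter (fun i : Fin k => u ≤ (i : ℕ) ∧ (i : ℕ) < u')) := by
      intro i hi
      simp only [mem_filter, mem_insert] at hi ⊢
      by_cases h' : (i : ℕ) = u'
      · exact Or.inl (Fin.ext h')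
      · exact Or.inr ⟨hi.1, hi.2.1, by omega⟩
    exact (card_le_card this).trans (card_insert_le _ _)
  · have : J.filter (fun i : Fin k => u ≤ (i : ℕ) ∧ (i : ℕ) < u' + 1) ⊆
        (J.filter (fun i : Fin k => u ≤ (i : ℕ) ∧ (i : ℕ) < u')) := by
      intro i hi
      simp only [mem_filter] at hi ⊢
      exact ⟨hi.1, hi.2.1, by have := i.2; omega⟩
    exact (card_le_card this).trans (by omega)

theorem card_seg_add (J : Finset (Fin k)) {u m u' : ℕ} (h1 : u ≤ m) (h2 : m ≤ u') :
    (seg J u u').card = (seg J u m).card + (seg J m u').card := by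
  unfold seg
  rw [← card_union_of_disjoint]
  · congr 1
    ext i
    simp only [mem_filter, mem_union]
    constructor
    · rintro ⟨h3, h4, h5⟩
      by_cases h : (i : ℕ) < m
      · exact Or.inl ⟨h3, h4, h⟩
      · exact Or.inr ⟨h3, by omega, h5⟩
    · rintro (⟨h3, h4, h5⟩ | ⟨h3, h4, h5⟩)
      · exact ⟨h3, h4, by omega⟩
      · exact ⟨h3, by omega, h5⟩
  · rw [disjoint_left]
    intro i hi hi'
    simp only [mem_filter] at hi hi'
    omega

/-- a layer just after the factor of `J` with a given number -/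
theorem exists_cut (J : Finset (Fin k)) {u u' p : ℕ} (hp : 1 ≤ p) (hu : u ≤ u')
    (h : p ≤ (seg J u u').card) : ∃ m, u < m ∧ m ≤ u' ∧ (seg J u m).card = p ∧
      ∃ hm : m - 1 < k, (⟨m - 1, hm⟩ : Fin k) ∈ J := by
  classical
  have hex : ∃ m, p ≤ (seg J u m).card := ⟨u', h⟩
  set m := Nat.find hex with hm
  have h1 : p ≤ (seg J u m).card := Nat.find_spec hex
  have h2 : m ≤ u' := Nat.find_le h
  have h3 : u < m := by
    by_contra hc
    push Not at hc
    have : (seg J u m).card = 0 := by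
      rw [card_eq_zero, seg, filter_eq_empty_iff]
      intro i _
      omega
    omega
  have h4 : (seg J u (m - 1)).card < p := by
    by_contra hc
    push Not at hc
    have := Nat.find_le (h := hex) hc
    omega
  have h5 := card_seg_succ J u (m - 1)
  rw [show m - 1 + 1 = m by omega] at h5
  refine ⟨m, h3, h2, by omega, ?_⟩
  by_contra hc
  push Not at hc
  have h6 : seg J u m ⊆ seg J u (m - 1) := by
    intro i hi
    unfold seg at hi ⊢
    rw [mem_filter] at hi ⊢
    refine ⟨hi.1, hi.2.1, ?_⟩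
    by_contra h7
    have h8 : (i : ℕ) = m - 1 := by omega
    have h9 := hc (by have := i.2; omega)
    apply h9
    have : (⟨m - 1, by have := i.2; omega⟩ : Fin k) = i := Fin.ext h8.symm
    rw [this]
    exact hi.1
  have := card_le_card h6
  omega

section

variable {C : (Set (Fin k × Fin n × Fin n) → Prop) → ℕ → Prop} (hC : Calc C)
  {J : Finset (Fin k)} {D : ℕ}

include hC

/-- the recursion over the factors in `J` -/
theorem calc_walk
    (hD : ∀ u u', u ≤ u' → u' ≤ k → seg J u u' = ∅ → ∀ c d, C (fun x => Walk x u u' c d) D)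
    {B : ℕ → ℕ} (hB0 : n * (D + 2) + 2 ≤ B 0) (hB : ∀ s, n * (B s + B s) + 2 ≤ B (s + 1))
    (hBm : Monotone B) : ∀ s u u', u < u' → u' ≤ k →
      (∃ hm : u' - 1 < k, (⟨u' - 1, hm⟩ : Fin k) ∈ J) → (seg J u u').card ≤ 2 ^ s →
      ∀ c d, C (fun x => Walk x u u' c d) (B s) := by
  intro s
  induction s with
  | zero =>
    intro u u' hu hk ⟨hm, hmJ⟩ hc c d
    have h1 := card_seg_add J (show u ≤ u' - 1 by omega) (show u' - 1 ≤ u' by omega)
    have h2 : 1 ≤ (seg J (u' - 1) u').card := by
      refine card_pos.mpr ⟨⟨u' - 1, hm⟩, ?_⟩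
      unfold seg
      rw [mem_filter]
      exact ⟨hmJ, by simp; omega⟩
    have h3 : seg J u (u' - 1) = ∅ := by
      rw [← card_eq_zero]
      simp only [pow_zero] at hc
      omega
    have h4 : ∀ e : Fin n, C (fun x => Walk x u (u' - 1) c e ∧ (⟨u' - 1, hm⟩, e, d) ∈ x)
        (D + 2) := fun e =>
      hC.and (hD u (u' - 1) (by omega) (by omega) h3 c e) (hC.lit _)
    refine hC.congr (hC.mono (hC.exist h4) hB0) (fun x => ?_)
    rw [walk_split (show u ≤ u' - 1 by omega) (show u' - 1 ≤ u' by omega)]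
    refine exists_congr fun e => and_congr Iff.rfl ?_
    have := walk_one (x := x) hm (c := e) (d := d)
    rw [show u' - 1 + 1 = u' by omega] at this
    exact this.symm
  | succ s ih =>
    intro u u' hu hk hm hc c d
    by_cases hs : (seg J u u').card ≤ 2 ^ s
    · exact hC.mono (ih u u' hu hk hm hs c d) (hBm (by omega))
    · push Not at hs
      obtain ⟨m, h1, h2, h3, h4⟩ := exists_cut J (p := 2 ^ s) Nat.one_le_two_pow
        (show u ≤ u' by omega) hs.le
      have h5 := card_seg_add J (show u ≤ m by omega) h2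
      have h6 : m < u' := by
        by_contra h
        have : m = u' := by omega
        subst this
        omega
      rw [pow_succ] at hc
      have h7 : ∀ e : Fin n, C (fun x => Walk x u m c e ∧ Walk x m u' e d) (B s + B s) :=
        fun e => hC.and (ih u m h1 (by omega) h4 (by omega) c e)
          (ih m u' h6 hk hm (by omega) e d)
      refine hC.congr (hC.mono (hC.exist h7) (hB s)) (fun x => ?_)
      exact (walk_split (show u ≤ m by omega) h2).symm

/-- the cost of an entry when blocks without factors in `J` cost `D` -/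
theorem calc_entry (hJ : J.Nonempty) (hn : 1 ≤ n)
    (hD : ∀ u u', u ≤ u' → u' ≤ k → seg J u u' = ∅ → ∀ c d, C (fun x => Walk x u u' c d) D)
    (a b : Fin n) :
    C (fun x => Entry a b x) (2 * n ^ 2 * (D + 4) * (2 * n) ^ Nat.clog 2 J.card) := by
  classical
  set B : ℕ → ℕ := fun s => (2 * n) ^ s * (n * (D + 2) + 4) - 2 with hB
  have hpos : ∀ s, 1 ≤ (2 * n) ^ s := fun s => Nat.one_le_pow _ _ (by omega)
  have hbig : ∀ s, 4 ≤ (2 * n) ^ s * (n * (D + 2) + 4) := by
    intro s
    have := Nat.mul_le_mul (hpos s) (show 4 ≤ n * (D + 2) + 4 by omega)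
    omega
  set i0 := J.max' hJ with hi0
  have hi0J : i0 ∈ J := J.max'_mem hJ
  have hseg : seg J (i0 + 1) k = ∅ := by
    unfold seg
    rw [filter_eq_empty_iff]
    intro i hi
    have := J.le_max' i hi
    rw [← hi0] at this
    have h2 : (i : ℕ) ≤ i0 := this
    omega
  have hcard : (seg J 0 (i0 + 1)).card ≤ 2 ^ Nat.clog 2 J.card :=
    (card_le_card (filter_subset _ _)).trans (Nat.le_pow_clog (by norm_num) _)
  have h1 := calc_walk hC hD (B := B) (by simp [hB])
    (by
      intro s
      have h2 := hbig s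
      have h3 : (2 * n) ^ (s + 1) * (n * (D + 2) + 4) =
          2 * n * ((2 * n) ^ s * (n * (D + 2) + 4)) := by ring
      simp only [hB]
      rw [h3]
      set X := (2 * n) ^ s * (n * (D + 2) + 4) with hX
      obtain ⟨Y, hY⟩ : ∃ Y, X = Y + 2 := ⟨X - 2, by omega⟩
      rw [hY]
      have h4 : 2 * n * (Y + 2) = n * (Y + Y) + 4 * n := by ring
      rw [h4]
      have : Y + 2 - 2 = Y := by omega
      rw [this]
      omega)
    (by
      intro s t hst
      simp only [hB]
      refine Nat.sub_le_sub_right ?_ _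
      exact Nat.mul_le_mul_right _ (Nat.pow_le_pow_right (by omega) hst))
    (Nat.clog 2 J.card) 0 (i0 + 1) (by omega) (by have := i0.2; omega)
    ⟨by have := i0.2; omega, by
      have : (⟨(i0 : ℕ) + 1 - 1, by have := i0.2; omega⟩ : Fin k) = i0 := Fin.ext (by simp)
      rw [this]; exact hi0J⟩ hcard
  have h2 : ∀ e : Fin n, C (fun x => Walk x 0 (i0 + 1) a e ∧ Walk x (i0 + 1) k e b)
      (B (Nat.clog 2 J.card) + D) := fun e =>
    hC.and (h1 a e) (hD _ _ (by have := i0.2; omega) le_rfl hseg e b)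
  refine hC.congr (hC.mono (hC.exist h2) ?_) (fun x => ?_)
  · simp only [hB]
    have h3 := hbig (Nat.clog 2 J.card)
    set P := (2 * n) ^ Nat.clog 2 J.card with hP
    have hP1 : 1 ≤ P := hpos _
    have h4 : n * (P * (n * (D + 2) + 4) - 2 + D) + 2 ≤ n * (P * (n * (D + 2) + 4)) + n * D := by
      obtain ⟨Y, hY⟩ : ∃ Y, P * (n * (D + 2) + 4) = Y + 2 := ⟨P * (n * (D + 2) + 4) - 2, by omega⟩
      rw [hY]
      have : Y + 2 - 2 = Y := by omega
      rw [this]
      nlinarith
    refine h4.trans ?_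
    have h5 : n * D ≤ P * (n ^ 2 * D) := by
      have e1 : n * D ≤ n ^ 2 * D := Nat.mul_le_mul_right _ (by nlinarith)
      calc n * D ≤ n ^ 2 * D := e1
        _ = 1 * (n ^ 2 * D) := (one_mul _).symm
        _ ≤ P * (n ^ 2 * D) := Nat.mul_le_mul_right _ hP1
    have h6 : n * (P * (n * (D + 2) + 4)) ≤ P * (n ^ 2 * (D + 6)) := by
      have e1 : n * (n * (D + 2) + 4) ≤ n ^ 2 * (D + 6) := by nlinarith
      calc n * (P * (n * (D + 2) + 4)) = P * (n * (n * (D + 2) + 4)) := by ring
        _ ≤ P * (n ^ 2 * (D + 6)) := Nat.mul_le_mul_left _ e1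
    calc n * (P * (n * (D + 2) + 4)) + n * D ≤ P * (n ^ 2 * (D + 6)) + P * (n ^ 2 * D) :=
          Nat.add_le_add h6 h5
      _ = P * (n ^ 2 * (2 * D + 6)) := by ring
      _ ≤ P * (n ^ 2 * (2 * D + 8)) := Nat.mul_le_mul_left _ (Nat.mul_le_mul_left _ (by omega))
      _ = 2 * n ^ 2 * (D + 4) * P := by ring
  · rw [← walk_all, walk_split (Nat.zero_le (i0 + 1 : ℕ)) (show (i0 : ℕ) + 1 ≤ k by
      have := i0.2; omega)]

end

end Pool.Agent.Lib.Pe46137P
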