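import Pool.Agent.Lib.Pe46137P.Dag
import Pool.Agent.Lib.Pe46137P.Iso
import Pool.Agent.Lib.Pe46137P.Walk

/-!
Walks of given weight, their number, and span programs for blocks of consecutive factors.
-/

namespace Pool.Agent.Lib.Pe46137P

open Finset

section count

variable {n k : ℕ} (x : Set (Fin k × Fin n × Fin n)) (u' : ℕ) (d : Fin n)

/-- `v` continues the walk from vertex `c`, `r` layers before layer `u'`, to vertex `d` -/
def IsW : (r : ℕ) → Fin n → (Fin r → Fin n) → Prop
  | 0, c, _ => c = d
  | r + 1, c, v => (∃ h : u' - (r + 1) < k, (⟨u' - (r + 1), h⟩, c, v 0) ∈ x) ∧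
      IsW r (v 0) (fun j => v j.succ)

variable (w : ℕ → Fin n → ℕ)

/-- the weight of a continuation -/
def wt (r : ℕ) (v : Fin r → Fin n) : ℕ := ∑ j : Fin r, w (r - 1 - j) (v j)

theorem wt_cons (r : ℕ) (c' : Fin n) (v : Fin r → Fin n) :
    wt w (r + 1) (Fin.cons c' v) = w r c' + wt w r v := by
  unfold wt
  rw [Fin.sum_univ_succ]
  simp only [Fin.val_zero, Fin.cons_zero, Fin.val_succ, Fin.cons_succ]
  congr 1
  refine sum_congr rfl fun j _ => ?_
  congr 1
  omega

open Classical in
/-- the number of continuations of weight `s` -/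
noncomputable def cnt (r : ℕ) (c : Fin n) (s : ℕ) : ℕ :=
  (univ.filter (fun v : Fin r → Fin n => IsW x u' d r c v ∧ wt w r v = s)).card

theorem cnt_zero (c : Fin n) (s : ℕ) : cnt x u' d w 0 c s = if c = d ∧ s = 0 then 1 else 0 := by
  classical
  unfold cnt
  by_cases h : c = d ∧ s = 0
  · rw [if_pos h, filter_true_of_mem]
    · simp
    · intro v _
      refine ⟨h.1, ?_⟩
      simp [wt, h.2]
  · rw [if_neg h, filter_false_of_mem]
    · simp
    · rintro v _ ⟨h1, h2⟩
      refine h ⟨h1, ?_⟩
      rw [← h2]
      simp [wt]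

open Classical in
theorem cnt_succ (r : ℕ) (c : Fin n) (s : ℕ) : cnt x u' d w (r + 1) c s =
    ∑ c' : Fin n, if (∃ h : u' - (r + 1) < k, (⟨u' - (r + 1), h⟩, c, c') ∈ x) ∧ w r c' ≤ s then
      cnt x u' d w r c' (s - w r c') else 0 := by
  have h1 : cnt x u' d w (r + 1) c s = ∑ c' : Fin n, (univ.filter (fun v : Fin r → Fin n =>
      ((∃ h : u' - (r + 1) < k, (⟨u' - (r + 1), h⟩, c, c') ∈ x) ∧ IsW x u' d r c' v) ∧
        w r c' + wt w r v = s)).card := by
    unfold cnt
    rw [card_eq_sum_card_fiberwise (f := fun v : Fin (r + 1) → Fin n => v 0)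
      (t := (univ : Finset (Fin n))) (fun _ _ => mem_coe.mpr (mem_univ _))]
    refine sum_congr rfl fun c' _ => ?_
    refine card_bij' (fun v _ => fun j => v j.succ) (fun v _ => Fin.cons c' v) ?_ ?_ ?_ ?_
    · intro v hv
      simp only [mem_filter, mem_univ, true_and] at hv ⊢
      obtain ⟨⟨⟨h2, h3⟩, h4⟩, h5⟩ := hv
      rw [h5] at h2 h3
      refine ⟨⟨h2, h3⟩, ?_⟩
      rw [← h4, ← wt_cons]
      congr 1
      rw [← h5]
      exact Fin.cons_self_tail v
    · intro v hv
      simp only [mem_filter, mem_univ, true_and] at hv ⊢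
      refine ⟨⟨⟨?_, ?_⟩, ?_⟩, ?_⟩
      · simpa using hv.1.1
      · simpa using hv.1.2
      · rw [wt_cons]; exact hv.2
      · simp
    · intro v hv
      simp only [mem_filter, mem_univ, true_and] at hv
      rw [← hv.2]
      exact Fin.cons_self_tail v
    · intro v hv
      funext j
      simp
  rw [h1]
  refine sum_congr rfl fun c' _ => ?_
  by_cases h : (∃ h : u' - (r + 1) < k, (⟨u' - (r + 1), h⟩, c, c') ∈ x) ∧ w r c' ≤ s
  · rw [if_pos h]
    unfold cnt
    congr 1
    ext v
    simp only [mem_filter, mem_univ, true_and]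
    constructor
    · rintro ⟨⟨_, h2⟩, h3⟩
      exact ⟨h2, by omega⟩
    · rintro ⟨h2, h3⟩
      exact ⟨⟨h.1, h2⟩, by have := h.2; omega⟩
  · rw [if_neg h, card_eq_zero, filter_eq_empty_iff]
    rintro v _ ⟨⟨h2, _⟩, h3⟩
    exact h ⟨h2, by omega⟩

/-- continuations correspond to walks -/
theorem exists_isW : ∀ (r : ℕ) (c : Fin n), r ≤ u' → ((∃ v, IsW x u' d r c v) ↔
    Walk x (u' - r) u' c d) := by
  intro r
  induction r with
  | zero =>
    intro c _
    rw [Nat.sub_zero, walk_self]
    exact ⟨fun ⟨_, h⟩ => h, fun h => ⟨fun j => j.elim0, h⟩⟩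
  | succ r ih =>
    intro c hr
    have e : u' - (r + 1) + 1 = u' - r := by omega
    rw [walk_split (show u' - (r + 1) ≤ u' - r by omega) (show u' - r ≤ u' by omega)]
    constructor
    · rintro ⟨v, ⟨h, h1⟩, h2⟩
      refine ⟨v 0, ?_, (ih (v 0) (by omega)).mp ⟨_, h2⟩⟩
      rw [← e, walk_one h]
      exact h1
    · rintro ⟨c', h1, h2⟩
      obtain ⟨v, hv⟩ := (ih c' (by omega)).mpr h2
      have h3 : u' - (r + 1) < k := by
        obtain ⟨v', _, _, h4⟩ := h1
        exact (h4 (u' - (r + 1)) le_rfl (by omega)).1
      rw [← e, walk_one h3] at h1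
      exact ⟨Fin.cons c' v, ⟨h3, by simpa using h1⟩, by simpa using hv⟩

end count

/-- a span program for the number of walks of given weight -/
theorem scomp_cnt (K : Type) [Field K] {n k : ℕ} {M : Set (Fin k × Fin n × Fin n)} {L u' U : ℕ}
    (hLu : L ≤ u') (hu' : u' ≤ k)
    (hM : ∀ e : Fin k × Fin n × Fin n, u' - L ≤ (e.1 : ℕ) → (e.1 : ℕ) < u' → e ∉ M)
    (w : ℕ → Fin n → ℕ) (c d : Fin n) (s : ℕ) (hs : s ≤ U) :
    SComp K M (fun x => ((cnt x u' d w L c s : ℕ) : K) ≠ 0)
      ((L + 1) * n * (U + 1) + 1 + L * (n * n * (U + 1))) := by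
  classical
  have h := scomp_dag K (M := M) (A := Option (Fin (L + 1) × Fin n × Fin (U + 1)))
    (B := Fin L × Fin n × Fin n × Fin (U + 1))
    (fun z => some (z.1.succ, z.2.1, z.2.2.2))
    (fun z => if w z.1 z.2.2.1 ≤ (z.2.2.2 : ℕ) then
      some (z.1.castSucc, z.2.2.1, ⟨(z.2.2.2 : ℕ) - w z.1 z.2.2.1, by omega⟩) else none)
    (fun z => (⟨u' - (z.1 + 1), by have := z.1.2; omega⟩, z.2.1, z.2.2.1))
    (some (Fin.last L, c, ⟨s, by omega⟩)) (some (0, d, 0))
    (fun a => match a with
      | none => 0
      | some a => (a.1 : ℕ) + 1)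
    (by
      rintro ⟨r, p, q, t⟩
      simp only
      split_ifs <;> simp)
    (by
      rintro ⟨r, p, q, t⟩
      refine hM _ ?_ ?_
      · simp only
        have := r.2
        omega
      · simp only
        have := r.2
        omega)
    (fun x a => match a with
      | none => 0
      | some a => ((cnt x u' d w a.1 a.2.1 a.2.2 : ℕ) : K))
    (by
      intro x
      simp [cnt_zero])
    (by
      intro x a ha
      rcases a with _ | ⟨r, p, t⟩
      · simp
      · simp only [Fintype.sum_prod_type]
        rcases Fin.eq_zero_or_eq_succ r with rfl | ⟨r', rfl⟩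
        · have h1 : ¬ (p = d ∧ (t : ℕ) = 0) := by
            rintro ⟨rfl, h2⟩
            apply ha
            congr 3
            exact Fin.ext h2
          simp only [Fin.val_zero, cnt_zero, if_neg h1, Nat.cast_zero]
          refine (sum_eq_zero fun r' _ => sum_eq_zero fun p' _ => sum_eq_zero fun q' _ =>
            sum_eq_zero fun t' _ => ?_).symm
          rw [if_neg]
          rintro ⟨h2, _⟩
          simp only [Option.some.injEq, Prod.mk.injEq] at h2
          exact (Fin.succ_ne_zero _) h2.1
        · rw [sum_eq_single r']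
          · rw [sum_eq_single p]
            · simp only [Fin.val_succ, cnt_succ, Nat.cast_sum]
              refine sum_congr rfl fun q' _ => ?_
              rw [sum_eq_single t]
              · have hlt : u' - ((r' : ℕ) + 1) < k := by have := r'.2; omega
                by_cases h1 : (⟨u' - ((r' : ℕ) + 1), hlt⟩, p, q') ∈ x
                · by_cases h2 : w r' q' ≤ (t : ℕ)
                  · rw [if_pos ⟨⟨hlt, h1⟩, h2⟩]
                    simp only [h1, h2, and_true, if_true]
                    rfl
                  · rw [if_neg (fun h => h2 h.2)]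
                    simp only [h2, if_false, Nat.cast_zero]
                    simp
                · rw [if_neg (fun h => h1 h.1.2)]
                  simp only [h1, and_false, if_false, Nat.cast_zero]
              · intro t' _ hne
                rw [if_neg]
                rintro ⟨h2, _⟩
                simp only [Option.some.injEq, Prod.mk.injEq] at h2
                exact hne h2.2.2
              · simp
            · intro p' _ hne
              refine sum_eq_zero fun q' _ => sum_eq_zero fun t' _ => ?_
              rw [if_neg]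
              rintro ⟨h2, _⟩
              simp only [Option.some.injEq, Prod.mk.injEq] at h2
              exact hne h2.2.1
            · simp
          · intro r'' _ hne
            refine sum_eq_zero fun p' _ => sum_eq_zero fun q' _ => sum_eq_zero fun t' _ => ?_
            rw [if_neg]
            rintro ⟨h2, _⟩
            simp only [Option.some.injEq, Prod.mk.injEq] at h2
            exact hne (Fin.succ_injective _ h2.1)
          · simp)
  refine (h.mono (le_of_eq ?_)).congr (fun x => ?_)
  · simp only [Fintype.card_option, Fintype.card_prod, Fintype.card_fin]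
    ring
  · simp only [Fin.val_last]

end Pool.Agent.Lib.Pe46137P
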